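import Mathlib

set_option autoImplicit false

open Set

namespace Pool.Agent.HEC

/-- `x` and `y` are joined by an `ε`-chain of points of `X` which stays at distance at least `ρ`
from some point `z` of `L`. -/
def FarJoined {X : Type*} [MetricSpace X] (L : Set X) (ε ρ : ℝ) (x y : X) : Prop :=
  ∃ z ∈ L, ρ ≤ dist z x ∧ Relation.ReflTransGen (fun u v => dist u v < ε ∧ ρ ≤ dist z v) x y

/-- `x` and `y` are joined by `k` successive `ε`-chains, each of which stays at distance at least
`ρ` from some point of `L`. -/
def KJoined {X : Type*} [MetricSpace X] (L : Set X) (ε ρ : ℝ) (k : ℕ) (x y : X) : Prop :=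
  ∃ u : ℕ → X, u 0 = x ∧ u k = y ∧ ∀ i < k, FarJoined L ε ρ (u i) (u (i + 1))

end Pool.Agent.HEC
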