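import Mathlib

set_option autoImplicit false

open Set

namespace Pool.Agent.HEC

/-- A *subcontinuum* of a compact space: a nonempty closed connected set. -/
def Cont {α : Type*} [TopologicalSpace α] (K : Set α) : Prop := IsClosed K ∧ IsConnected K

/-- `L` is `ε`-dense in `K` (with `L ⊆ K` required separately). -/
def DenseIn {X : Type*} [MetricSpace X] (L K : Set X) (ε : ℝ) : Prop :=
  ∀ x ∈ K, ∃ y ∈ L, dist x y < ε

/-- The component of `G - v` containing `w`: the vertices joined to `w` by a walk avoiding `v`. -/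
def branch {V : Type*} (G : SimpleGraph V) (v w : V) : Set V :=
  {u | ∃ q : G.Walk w u, v ∉ q.support}

/-- The nerve (intersection graph) of a family of sets. -/
def nerve {X V : Type*} (K : V → Set X) : SimpleGraph V where
  Adj u v := u ≠ v ∧ (K u ∩ K v).Nonempty
  symm := ⟨fun u v h => ⟨h.1.symm, by rw [inter_comm]; exact h.2⟩⟩
  loopless := ⟨fun _ h => h.1 rfl⟩

/-- The edge from `v` to `w` is `ρ`-large: the links beyond it carry a `ρ`-dense continuum. -/
def LargeEdge {X V : Type*} [MetricSpace X] (G : SimpleGraph V) (K : V → Set X) (ρ : ℝ)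
    (v w : V) : Prop :=
  G.Adj v w ∧ ∃ C : Set X, Cont C ∧ C ⊆ ⋃ u ∈ branch G v w, K u ∧ DenseIn C univ ρ

/-- `v` is a `ρ`-large junction of the cover `K`: three of the branches at `v` carry a continuum
which is `ρ`-dense in the whole space. -/
def LargeJunction {X V : Type*} [MetricSpace X] (K : V → Set X) (ρ : ℝ) (v : V) : Prop :=
  ∃ a b c, a ≠ b ∧ b ≠ c ∧ a ≠ c ∧ LargeEdge (nerve K) K ρ v a ∧ LargeEdge (nerve K) K ρ v b ∧
    LargeEdge (nerve K) K ρ v c

end Pool.Agent.HEC
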