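import Mathlib
import Pool.Agent.HEC.Defs

set_option autoImplicit false

open Set Filter Topology

namespace Pool.Agent.HEC

section Basic

variable {α : Type*} [TopologicalSpace α] [CompactSpace α] [T2Space α]

theorem cont_sInter_chain (c : Set (Set α)) (hne : c.Nonempty)
    (hc : IsChain (· ⊆ ·) c) (h : ∀ K ∈ c, Cont K) : Cont (⋂₀ c) := by
  have hdir : DirectedOn (· ⊇ ·) c := by
    intro a ha b hb
    rcases hc.total ha hb with hab | hab
    · exact ⟨a, ha, subset_rfl, hab⟩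
    · exact ⟨b, hb, hab, subset_rfl⟩
  have hclosed : IsClosed (⋂₀ c) := isClosed_sInter (fun K hK => (h K hK).1)
  -- a neighbourhood of the intersection contains a member
  have key : ∀ U : Set α, IsOpen U → ⋂₀ c ⊆ U → ∃ K ∈ c, K ⊆ U := by
    intro U hU hsub
    by_contra hcon
    push Not at hcon
    have : Nonempty c := hne.to_subtype
    have h1 : (⋂ i : c, ((i : Set α) ∩ Uᶜ)).Nonempty := by
      apply IsCompact.nonempty_iInter_of_directed_nonempty_isCompact_isClosed
      · intro a b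
        obtain ⟨d, hd, hda, hdb⟩ := hdir a.1 a.2 b.1 b.2
        exact ⟨⟨d, hd⟩, inter_subset_inter_left _ hda, inter_subset_inter_left _ hdb⟩
      · intro i
        obtain ⟨x, hx, hxU⟩ := not_subset.1 (hcon i.1 i.2)
        exact ⟨x, hx, hxU⟩
      · intro i
        exact ((h i.1 i.2).1.inter hU.isClosed_compl).isCompact
      · intro i
        exact (h i.1 i.2).1.inter hU.isClosed_compl
    obtain ⟨x, hx⟩ := h1
    have hx1 : x ∈ ⋂₀ c := by
      intro K hK
      exact (mem_iInter.1 hx ⟨K, hK⟩).1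
    obtain ⟨K, hK⟩ := hne
    exact (mem_iInter.1 hx ⟨K, hK⟩).2 (hsub hx1)
  refine ⟨hclosed, ?_, ?_⟩
  · by_contra hemp
    rw [not_nonempty_iff_eq_empty] at hemp
    obtain ⟨K, hK, hKe⟩ := key ∅ isOpen_empty (by rw [hemp])
    exact (h K hK).2.nonempty.ne_empty (subset_empty_iff.1 hKe)
  · rw [isPreconnected_closed_iff]
    intro A B hA hB hsub hneA hneB
    by_contra hcon
    rw [not_nonempty_iff_eq_empty] at hcon
    have hdisj : Disjoint (⋂₀ c ∩ A) (⋂₀ c ∩ B) := by
      rw [disjoint_iff_inter_eq_empty]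
      rw [eq_empty_iff_forall_notMem] at hcon ⊢
      rintro x ⟨⟨h1, h2⟩, _, h3⟩
      exact hcon x ⟨h1, h2, h3⟩
    obtain ⟨U, V, hU, hV, hAU, hBV, hUV⟩ :=
      SeparatedNhds.of_isCompact_isCompact (hclosed.inter hA).isCompact (hclosed.inter hB).isCompact hdisj
    obtain ⟨K, hK, hKUV⟩ := key (U ∪ V) (hU.union hV) (by
      intro x hx
      rcases hsub hx with h1 | h1
      · exact Or.inl (hAU ⟨hx, h1⟩)
      · exact Or.inr (hBV ⟨hx, h1⟩))
    obtain ⟨a, ha, haA⟩ := hneA
    obtain ⟨b, hb, hbB⟩ := hneB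
    obtain ⟨x, hxK, hxU, hxV⟩ := (h K hK).2.isPreconnected U V hU hV hKUV
      ⟨a, ha K hK, hAU ⟨ha, haA⟩⟩ ⟨b, hb K hK, hBV ⟨hb, hbB⟩⟩
    exact (Set.disjoint_left.1 hUV hxU) hxV

theorem sep_component (x : α) (B : Set α) (hB : IsClosed B)
    (h : Disjoint (connectedComponent x) B) :
    ∃ Q : Set α, IsClopen Q ∧ x ∈ Q ∧ Disjoint Q B := by
  by_contra hcon
  push Not at hcon
  have h1 : (⋂ s : { s : Set α // IsClopen s ∧ x ∈ s }, ((s : Set α) ∩ B)).Nonempty := by
    have : Nonempty { s : Set α // IsClopen s ∧ x ∈ s } := ⟨⟨univ, isClopen_univ, mem_univ _⟩⟩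
    apply IsCompact.nonempty_iInter_of_directed_nonempty_isCompact_isClosed
    · intro a b
      refine ⟨⟨a.1 ∩ b.1, a.2.1.inter b.2.1, a.2.2, b.2.2⟩, ?_, ?_⟩
      · exact inter_subset_inter_left _ inter_subset_left
      · exact inter_subset_inter_left _ inter_subset_right
    · intro i
      have := hcon i.1 i.2.1 i.2.2
      rwa [not_disjoint_iff_nonempty_inter] at this
    · intro i
      exact (i.2.1.isClosed.inter hB).isCompact
    · intro i
      exact i.2.1.isClosed.inter hB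
  obtain ⟨y, hy⟩ := h1
  rw [connectedComponent_eq_iInter_isClopen] at h
  refine Set.disjoint_left.1 h (?_ : y ∈ _) ?_
  · rw [mem_iInter]
    intro s
    exact (mem_iInter.1 hy s).1
  · exact (mem_iInter.1 hy ⟨univ, isClopen_univ, mem_univ _⟩).2

omit [CompactSpace α] [T2Space α] in
theorem cont_comp {F : Set α} (hF : IsClosed F) {x : α} (hx : x ∈ F) :
    Cont (connectedComponentIn F x) := by
  refine ⟨?_, isConnected_connectedComponentIn_iff.2 hx⟩
  have h1 : closure (connectedComponentIn F x) ⊆ connectedComponentIn F x := by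
    apply IsPreconnected.subset_connectedComponentIn
    · exact isPreconnected_connectedComponentIn.closure
    · exact subset_closure (mem_connectedComponentIn hx)
    · exact closure_minimal (connectedComponentIn_subset F x) hF
  exact isClosed_of_closure_subset h1

theorem sep_in {F : Set α} (hF : IsClosed F) {x : α} (hx : x ∈ F) {B : Set α} (hB : IsClosed B)
    (h : Disjoint (connectedComponentIn F x) B) :
    ∃ Q : Set α, IsClosed Q ∧ Q ⊆ F ∧ x ∈ Q ∧ IsClosed (F \ Q) ∧ Disjoint Q B := by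
  have : CompactSpace F := isCompact_iff_compactSpace.1 hF.isCompact
  obtain ⟨Q, hQ, hxQ, hQB⟩ := sep_component (⟨x, hx⟩ : F) ((↑) ⁻¹' B)
    (hB.preimage continuous_subtype_val) (by
      rw [Set.disjoint_left]
      intro y hy hyB
      refine Set.disjoint_left.1 h (?_ : (y : α) ∈ _) hyB
      rw [connectedComponentIn_eq_image hx]
      exact mem_image_of_mem _ hy)
  refine ⟨(↑) '' Q, ?_, ?_, ⟨⟨x, hx⟩, hxQ, rfl⟩, ?_, ?_⟩
  · exact hF.isClosedEmbedding_subtypeVal.isClosedMap _ hQ.isClosed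
  · rintro _ ⟨y, _, rfl⟩; exact y.2
  · have : F \ ((↑) '' Q) = (↑) '' (Qᶜ) := by
      ext y
      constructor
      · rintro ⟨hy, hyQ⟩
        refine ⟨⟨y, hy⟩, ?_, rfl⟩
        intro hq
        exact hyQ ⟨_, hq, rfl⟩
      · rintro ⟨z, hz, rfl⟩
        refine ⟨z.2, ?_⟩
        rintro ⟨w, hw, hwz⟩
        exact hz (by rwa [Subtype.ext hwz] at hw)
    rw [this]
    exact hF.isClosedEmbedding_subtypeVal.isClosedMap _ hQ.compl.isClosed
  · rw [Set.disjoint_left]
    rintro _ ⟨y, hy, rfl⟩ hyB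
    exact Set.disjoint_left.1 hQB hy hyB

/-- Boundary bumping. -/
theorem bump {L F : Set α} (hL : Cont L) (hF : IsClosed F) {x : α} (hxL : x ∈ L) (hxF : x ∈ F)
    (hLF : ¬ L ⊆ F) :
    (connectedComponentIn (L ∩ F) x ∩ closure (L \ F)).Nonempty := by
  by_contra hcon
  rw [← not_disjoint_iff_nonempty_inter, not_not] at hcon
  have hLFc : IsClosed (L ∩ F) := hL.1.inter hF
  obtain ⟨Q, hQ, hQF, hxQ, hQ', hdisj⟩ := sep_in hLFc ⟨hxL, hxF⟩ isClosed_closure hcon
  have h2 := hL.2.isPreconnected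
  rw [isPreconnected_closed_iff] at h2
  obtain ⟨y, hyL, hyQ, hy⟩ := h2 Q ((L ∩ F) \ Q ∪ closure (L \ F)) hQ (hQ'.union isClosed_closure)
    (by
      intro z hz
      by_cases hzF : z ∈ F
      · by_cases hzQ : z ∈ Q
        · exact Or.inl hzQ
        · exact Or.inr (Or.inl ⟨⟨hz, hzF⟩, hzQ⟩)
      · exact Or.inr (Or.inr (subset_closure ⟨hz, hzF⟩)))
    ⟨x, hxL, hxQ⟩
    (by
      obtain ⟨z, hz, hzF⟩ := not_subset.1 hLF
      exact ⟨z, hz, Or.inr (subset_closure ⟨hz, hzF⟩)⟩)
  rcases hy with hy | hy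
  · exact hy.2 hyQ
  · exact Set.disjoint_left.1 hdisj hyQ hy

end Basic

/-- Hereditary indecomposability, in the form: intersecting subcontinua are nested. -/
def HI (X : Type*) [TopologicalSpace X] : Prop :=
  ∀ A B : Set X, Cont A → Cont B → (A ∩ B).Nonempty → A ⊆ B ∨ B ⊆ A

theorem Cont.image {α β : Type*} [TopologicalSpace α] [TopologicalSpace β] [CompactSpace α]
    [T2Space β] {K : Set α} (hK : Cont K) {f : α → β} (hf : ContinuousOn f K) : Cont (f '' K) :=
  ⟨(hK.1.isCompact.image_of_continuousOn hf).isClosed, hK.2.image f hf⟩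

/-- Maps onto subcontinua of a hereditarily indecomposable space are confluent. -/
theorem confluent {α X : Type*} [TopologicalSpace α] [CompactSpace α] [T2Space α]
    [TopologicalSpace X] [T2Space X] (hX : HI X) {f : α → X} (hf : Continuous f)
    {W : Set α} (hW : Cont W) {D : Set X} (hD : Cont D) (hDW : D ⊆ f '' W) {w : α} (hw : w ∈ W)
    (hwD : f w ∈ D) :
    f '' (connectedComponentIn (W ∩ f ⁻¹' D) w) = D := by
  have hA : IsClosed (W ∩ f ⁻¹' D) := hW.1.inter (hD.1.preimage hf)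
  apply Subset.antisymm
  · rintro _ ⟨y, hy, rfl⟩
    exact (connectedComponentIn_subset _ _ hy).2
  intro d hd
  by_contra hdC
  obtain ⟨Q, hQ, hQA, hwQ, hQ', hdisj⟩ := sep_in hA (x := w) ⟨hw, hwD⟩
    (B := f ⁻¹' {d}) (isClosed_singleton.preimage hf) (by
      rw [Set.disjoint_left]
      intro y hy hyd
      exact hdC ⟨y, hy, hyd⟩)
  obtain ⟨U, V, hU, hV, hQU, hQV, hUV⟩ :=
    SeparatedNhds.of_isCompact_isCompact hQ.isCompact hQ'.isCompact disjoint_sdiff_right
  -- `F = closure U`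
  have hFV : Disjoint (closure U) V := hUV.closure_left hV
  have hwF : w ∈ closure U := subset_closure (hQU hwQ)
  have hWF : ¬ W ⊆ closure U := by
    intro hsub
    obtain ⟨w1, hw1, hw1d⟩ := hDW hd
    have h1 : w1 ∈ W ∩ f ⁻¹' D := ⟨hw1, by rw [mem_preimage, hw1d]; exact hd⟩
    have h2 : w1 ∉ Q := fun hq => Set.disjoint_left.1 hdisj hq hw1d
    exact Set.disjoint_left.1 hFV (hsub hw1) (hQV ⟨h1, h2⟩)
  obtain ⟨e, he, he'⟩ := bump hW isClosed_closure hw hwF hWF
  have hEc : Cont (connectedComponentIn (W ∩ closure U) w) :=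
    cont_comp (hW.1.inter isClosed_closure) ⟨hw, hwF⟩
  have heU : e ∉ U := by
    have : e ∈ closure (Uᶜ) := closure_mono (fun z hz => fun hzU => hz.2 (subset_closure hzU)) he'
    rwa [hU.isClosed_compl.closure_eq] at this
  have heW : e ∈ W ∩ closure U := connectedComponentIn_subset _ _ he
  have heD : f e ∉ D := by
    intro hfe
    have h1 : e ∈ W ∩ f ⁻¹' D := ⟨heW.1, hfe⟩
    by_cases hq : e ∈ Q
    · exact heU (hQU hq)
    · exact Set.disjoint_left.1 hFV heW.2 (hQV ⟨h1, hq⟩)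
  have hfE : Cont (f '' (connectedComponentIn (W ∩ closure U) w)) := hEc.image hf.continuousOn
  rcases hX _ D hfE hD ⟨f w, mem_image_of_mem f (mem_connectedComponentIn ⟨hw, hwF⟩), hwD⟩ with h | h
  · exact heD (h (mem_image_of_mem f he))
  · obtain ⟨e', he1, he2⟩ := h hd
    have h3 := connectedComponentIn_subset _ _ he1
    have h4 : e' ∈ W ∩ f ⁻¹' D := ⟨h3.1, by rw [mem_preimage, he2]; exact hd⟩
    by_cases hq : e' ∈ Q
    · exact Set.disjoint_left.1 hdisj hq he2
    · exact Set.disjoint_left.1 hFV h3.2 (hQV ⟨h4, hq⟩)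

end Pool.Agent.HEC
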