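import Mathlib
import Pool.Agent.HEC.Core

set_option autoImplicit false

open Set Filter Topology

namespace Pool.Agent.HEC

theorem image_sInter_chain {α β : Type*} [TopologicalSpace α] [CompactSpace α]
    [TopologicalSpace β] [T1Space β] {f : α → β} (hf : Continuous f) (c : Set (Set α))
    (hne : c.Nonempty) (hc : IsChain (· ⊆ ·) c) (h : ∀ K ∈ c, IsClosed K) {y : β}
    (hy : ∀ K ∈ c, y ∈ f '' K) : y ∈ f '' (⋂₀ c) := by
  have : Nonempty c := hne.to_subtype
  have h1 : (⋂ i : c, ((i : Set α) ∩ f ⁻¹' {y})).Nonempty := by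
    apply IsCompact.nonempty_iInter_of_directed_nonempty_isCompact_isClosed
    · intro a b
      rcases hc.total a.2 b.2 with hab | hab
      · exact ⟨a, subset_rfl, inter_subset_inter_left _ hab⟩
      · exact ⟨b, inter_subset_inter_left _ hab, subset_rfl⟩
    · intro i
      obtain ⟨x, hx, hxy⟩ := hy i.1 i.2
      exact ⟨x, hx, hxy⟩
    · intro i
      exact ((h i.1 i.2).inter (isClosed_singleton.preimage hf)).isCompact
    · intro i
      exact (h i.1 i.2).inter (isClosed_singleton.preimage hf)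
  obtain ⟨x, hx⟩ := h1
  refine ⟨x, fun K hK => (mem_iInter.1 hx ⟨K, hK⟩).1, ?_⟩
  obtain ⟨K, hK⟩ := hne
  exact (mem_iInter.1 hx ⟨K, hK⟩).2

section

variable {X : Type*} [TopologicalSpace X] [CompactSpace X] [T2Space X]

theorem Cont.fst {W : Set (X × X)} (hW : Cont W) : Cont (Prod.fst '' W) :=
  hW.image continuous_fst.continuousOn

theorem Cont.snd {W : Set (X × X)} (hW : Cont W) : Cont (Prod.snd '' W) :=
  hW.image continuous_snd.continuousOn

theorem exists_eqProj_aux (hX : HI X) {W : Set (X × X)} (hW : Cont W)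
    (h : Prod.snd '' W ⊆ Prod.fst '' W) :
    ∃ Z ⊆ W, Cont Z ∧ Prod.fst '' Z = Prod.snd '' Z := by
  obtain ⟨Z, hZW, hZ⟩ := zorn_superset_nonempty
    {V : Set (X × X) | Cont V ∧ Prod.snd '' V ⊆ Prod.fst '' V} (by
      intro c hcS hc hne
      refine ⟨⋂₀ c, ⟨cont_sInter_chain c hne hc (fun K hK => (hcS hK).1), ?_⟩,
        fun s hs => sInter_subset_of_mem hs⟩
      intro y hy
      apply image_sInter_chain continuous_fst c hne hc (fun K hK => (hcS hK).1.1)
      intro K hK
      apply (hcS hK).2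
      exact image_mono (sInter_subset_of_mem hK) hy) W ⟨hW, h⟩
  have hZ1 : Cont Z := hZ.prop.1
  have hZ2 : Prod.snd '' Z ⊆ Prod.fst '' Z := hZ.prop.2
  refine ⟨Z, hZW, hZ1, ?_⟩
  obtain ⟨d, hd⟩ := hZ1.snd.2.nonempty
  obtain ⟨w, hw, hwd⟩ := hZ2 hd
  have hwD : Prod.fst w ∈ Prod.snd '' Z := by rw [hwd]; exact hd
  have hC := confluent hX continuous_fst hZ1 hZ1.snd hZ2 hw hwD
  set C := connectedComponentIn (Z ∩ Prod.fst ⁻¹' (Prod.snd '' Z)) w with hCdef
  have hCZ : C ⊆ Z := (connectedComponentIn_subset _ _).trans inter_subset_left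
  have hCc : Cont C := cont_comp (hZ1.1.inter (hZ1.snd.1.preimage continuous_fst)) ⟨hw, hwD⟩
  have hmem : C ∈ {V : Set (X × X) | Cont V ∧ Prod.snd '' V ⊆ Prod.fst '' V} :=
    ⟨hCc, by rw [hC]; exact image_mono hCZ⟩
  have hle := hZ.le_of_le hmem hCZ
  have hCeq : C = Z := Subset.antisymm hCZ hle
  rw [hCeq] at hC
  exact hC

theorem exists_eqProj (hX : HI X) {W : Set (X × X)} (hW : Cont W)
    (h : (Prod.fst '' W ∩ Prod.snd '' W).Nonempty) :
    ∃ Z ⊆ W, Cont Z ∧ Prod.fst '' Z = Prod.snd '' Z := by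
  rcases hX _ _ hW.fst hW.snd h with h1 | h1
  · have hsw : Cont (Prod.swap '' W) := hW.image continuous_swap.continuousOn
    have e1 : Prod.fst '' (Prod.swap '' W) = Prod.snd '' W := by
      rw [image_image]; rfl
    have e2 : Prod.snd '' (Prod.swap '' W) = Prod.fst '' W := by
      rw [image_image]; rfl
    obtain ⟨Z, hZW, hZ, hZe⟩ := exists_eqProj_aux hX hsw (by rw [e1, e2]; exact h1)
    refine ⟨Prod.swap '' Z, ?_, hZ.image continuous_swap.continuousOn, ?_⟩
    · rintro _ ⟨z, hz, rfl⟩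
      obtain ⟨w, hw, rfl⟩ := hZW hz
      simpa using hw
    · have e3 : Prod.fst '' (Prod.swap '' Z) = Prod.snd '' Z := by
        rw [image_image]; rfl
      have e4 : Prod.snd '' (Prod.swap '' Z) = Prod.fst '' Z := by
        rw [image_image]; rfl
      rw [e3, e4, hZe]
  · exact exists_eqProj_aux hX hW h1

/-- If `X` is hereditarily indecomposable and does not have span zero, there is a continuum `Z` with
equal nondegenerate projections `Y` such that no proper subcontinuum of `Y` contains both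
coordinates of a point of `Z`. -/
theorem exists_minimal (hX : HI X) {Z₀ : Set (X × X)} (hZ₀ : Cont Z₀)
    (he : Prod.fst '' Z₀ = Prod.snd '' Z₀) (hd : ∀ x, (x, x) ∉ Z₀) :
    ∃ Z : Set (X × X), Cont Z ∧ Prod.fst '' Z = Prod.snd '' Z ∧
      (Prod.fst '' Z).Nontrivial ∧
      ∀ p ∈ Z, ∀ D : Set X, Cont D → p.1 ∈ D → p.2 ∈ D → Prod.fst '' Z ⊆ D := by
  obtain ⟨Z, hZW, hZ⟩ := zorn_superset_nonempty
    {V : Set (X × X) | Cont V ∧ Prod.fst '' V = Prod.snd '' V ∧ ∀ x, (x, x) ∉ V} (by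
      intro c hcS hc hne
      refine ⟨⋂₀ c, ⟨cont_sInter_chain c hne hc (fun K hK => (hcS hK).1), ?_, ?_⟩,
        fun s hs => sInter_subset_of_mem hs⟩
      · apply Subset.antisymm
        · intro y hy
          apply image_sInter_chain continuous_snd c hne hc (fun K hK => (hcS hK).1.1)
          intro K hK
          rw [← (hcS hK).2.1]
          exact image_mono (sInter_subset_of_mem hK) hy
        · intro y hy
          apply image_sInter_chain continuous_fst c hne hc (fun K hK => (hcS hK).1.1)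
          intro K hK
          rw [(hcS hK).2.1]
          exact image_mono (sInter_subset_of_mem hK) hy
      · intro x hx
        obtain ⟨K, hK⟩ := hne
        exact (hcS hK).2.2 x (hx K hK)) Z₀ ⟨hZ₀, he, hd⟩
  obtain ⟨hZc, hZe, hZd⟩ := hZ.prop
  refine ⟨Z, hZc, hZe, ?_, ?_⟩
  · obtain ⟨p, hp⟩ := hZc.2.nonempty
    refine ⟨p.1, mem_image_of_mem _ hp, p.2, ?_, ?_⟩
    · rw [hZe]; exact mem_image_of_mem _ hp
    · intro h
      apply hZd p.1
      have : p = (p.1, p.1) := by rw [Prod.ext_iff]; exact ⟨rfl, h.symm⟩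
      rw [← this]; exact hp
  · intro p hp D hD h1 h2
    rcases hX _ _ hZc.fst hD ⟨p.1, mem_image_of_mem _ hp, h1⟩ with h | h
    · exact h
    · have hC := confluent hX continuous_fst hZc hD h hp h1
      set C := connectedComponentIn (Z ∩ Prod.fst ⁻¹' D) p with hCdef
      have hpC : p ∈ C := mem_connectedComponentIn ⟨hp, h1⟩
      have hCZ : C ⊆ Z := (connectedComponentIn_subset _ _).trans inter_subset_left
      have hCc : Cont C := cont_comp (hZc.1.inter (hD.1.preimage continuous_fst)) ⟨hp, h1⟩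
      obtain ⟨Z', hZ'C, hZ', hZ'e⟩ := exists_eqProj hX hCc
        ⟨p.2, by rw [hC]; exact h2, mem_image_of_mem _ hpC⟩
      have hmem : Z' ∈ {V : Set (X × X) | Cont V ∧ Prod.fst '' V = Prod.snd '' V ∧
          ∀ x, (x, x) ∉ V} := ⟨hZ', hZ'e, fun x hx => hZd x (hCZ (hZ'C hx))⟩
      have hle := hZ.le_of_le hmem (hZ'C.trans hCZ)
      have : Z ⊆ C := fun z hz => hZ'C (hle hz)
      have hCeq : C = Z := Subset.antisymm hCZ this
      rw [hCeq] at hC
      rw [hC]

end

/-- Hereditary equivalence. -/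
def HE (X : Type*) [TopologicalSpace X] : Prop :=
  ∀ K : Set X, IsClosed K → IsConnected K → K.Nontrivial → Nonempty (X ≃ₜ K)

/-- `X` is not the union of two proper subcontinua. -/
def Indec (X : Type*) [TopologicalSpace X] : Prop :=
  ∀ A B : Set X, Cont A → Cont B → A ∪ B = univ → A = univ ∨ B = univ

theorem Cont.preimage_homeo {α β : Type*} [TopologicalSpace α] [TopologicalSpace β]
    {K : Set β} (hK : Cont K) (h : α ≃ₜ β) : Cont (h ⁻¹' K) := by
  refine ⟨hK.1.preimage h.continuous, ?_⟩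
  rw [← h.image_symm]
  exact hK.2.image _ h.symm.continuous.continuousOn

theorem Cont.preimage_val {α : Type*} [TopologicalSpace α] {K A : Set α} (hA : Cont A)
    (hAK : A ⊆ K) : Cont ((↑) ⁻¹' A : Set K) := by
  refine ⟨hA.1.preimage continuous_subtype_val, ?_, ?_⟩
  · obtain ⟨a, ha⟩ := hA.2.nonempty
    exact ⟨⟨a, hAK ha⟩, ha⟩
  · rw [← IsInducing.subtypeVal.isPreconnected_image, Subtype.image_preimage_val,
      inter_eq_self_of_subset_right hAK]
    exact hA.2.isPreconnected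

theorem HE.hi {X : Type*} [TopologicalSpace X] (hX : HE X) (hI : Indec X) : HI X := by
  intro A B hA hB hAB
  have hU : Cont (A ∪ B) := ⟨hA.1.union hB.1, hA.2.nonempty.mono subset_union_left,
    IsPreconnected.union' hAB hA.2.isPreconnected hB.2.isPreconnected⟩
  by_cases hnt : (A ∪ B).Nontrivial
  · obtain ⟨h⟩ := hX (A ∪ B) hU.1 hU.2 hnt
    have hA' : Cont (h ⁻¹' ((↑) ⁻¹' A : Set ↑(A ∪ B))) :=
      (hA.preimage_val subset_union_left).preimage_homeo h
    have hB' : Cont (h ⁻¹' ((↑) ⁻¹' B : Set ↑(A ∪ B))) :=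
      (hB.preimage_val subset_union_right).preimage_homeo h
    have hun : h ⁻¹' ((↑) ⁻¹' A : Set ↑(A ∪ B)) ∪ h ⁻¹' ((↑) ⁻¹' B : Set ↑(A ∪ B)) = univ := by
      rw [eq_univ_iff_forall]
      intro x
      exact (h x).2
    rcases hI _ _ hA' hB' hun with h1 | h1
    · right
      intro b hb
      have : h.symm ⟨b, Or.inr hb⟩ ∈ h ⁻¹' ((↑) ⁻¹' A : Set ↑(A ∪ B)) := by rw [h1]; trivial
      simpa using this
    · left
      intro b hb
      have : h.symm ⟨b, Or.inl hb⟩ ∈ h ⁻¹' ((↑) ⁻¹' B : Set ↑(A ∪ B)) := by rw [h1]; trivial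
      simpa using this
  · rw [not_nontrivial_iff] at hnt
    left
    intro a ha
    obtain ⟨b, hb⟩ := hB.2.nonempty
    rw [hnt (Or.inl ha) (Or.inr hb)]
    exact hb

end Pool.Agent.HEC
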