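import Mathlib
import Pool.Agent.HEC.MinZ

set_option autoImplicit false

open Set Filter Topology

namespace Pool.Agent.HEC

/-- Span zero. -/
def SpanZero (X : Type*) [TopologicalSpace X] : Prop :=
  ∀ Z : Set (X × X), IsClosed Z → IsConnected Z → Prod.fst '' Z = Prod.snd '' Z →
    ∃ x : X, (x, x) ∈ Z

theorem Cont.image_val {α : Type*} [TopologicalSpace α] {K : Set α} (hK : IsClosed K)
    {A : Set K} (hA : Cont A) : Cont ((↑) '' A : Set α) :=
  ⟨hK.isClosedEmbedding_subtypeVal.isClosedMap _ hA.1,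
    hA.2.image _ continuous_subtype_val.continuousOn⟩

theorem Cont.image_homeo {α β : Type*} [TopologicalSpace α] [TopologicalSpace β]
    {K : Set α} (hK : Cont K) (h : α ≃ₜ β) : Cont (h '' K) := by
  rw [h.image_eq_preimage_symm]
  exact hK.preimage_homeo h.symm

/-- transport of a subset of `X × X` lying over `K × K` through a homeomorphism `K ≃ L` -/
theorem Cont.transport {X : Type*} [TopologicalSpace X] [CompactSpace X] [T2Space X]
    {K L : Set X} (hK : IsClosed K) (φ : K ≃ₜ L) {Z : Set (X × X)} (hZ : Cont Z)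
    (hZK : Z ⊆ K ×ˢ K) :
    Cont {p : X × X | ∃ a b : K, ((a : X), (b : X)) ∈ Z ∧ p = ((φ a : X), (φ b : X))} := by
  have : CompactSpace K := isCompact_iff_compactSpace.1 hK.isCompact
  set j : K × K → X × X := Prod.map (↑) (↑) with hj
  have hji : IsInducing j := IsInducing.subtypeVal.prodMap IsInducing.subtypeVal
  have hrange : j '' (j ⁻¹' Z) = Z := by
    rw [image_preimage_eq_iff]
    intro z hz
    exact ⟨(⟨z.1, (hZK hz).1⟩, ⟨z.2, (hZK hz).2⟩), rfl⟩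
  have hZ' : Cont (j ⁻¹' Z) := by
    refine ⟨hZ.1.preimage hji.continuous, ?_, ?_⟩
    · obtain ⟨z, hz⟩ := hZ.2.nonempty
      refine ⟨(⟨z.1, (hZK hz).1⟩, ⟨z.2, (hZK hz).2⟩), ?_⟩
      exact hz
    · rw [← hji.isPreconnected_image, hrange]
      exact hZ.2.isPreconnected
  have hcont : Continuous (fun q : K × K => ((φ q.1 : X), (φ q.2 : X))) := by
    fun_prop
  have := hZ'.image hcont.continuousOn
  convert this using 1
  ext p
  constructor
  · rintro ⟨a, b, hab, rfl⟩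
    exact ⟨(a, b), hab, rfl⟩
  · rintro ⟨q, hq, rfl⟩
    exact ⟨q.1, q.2, hq, rfl⟩

variable {X : Type*} [TopologicalSpace X] [CompactSpace X] [T2Space X]

/-- In a hereditarily equivalent indecomposable space without span zero, every nondegenerate
subcontinuum `K` carries a continuum `Z ⊆ K × K` with full projections, each of whose points is an
irreducible pair of `K`. -/
theorem exists_irr (hX : HE X) (hHI : HI X) (hns : ¬ SpanZero X) {K : Set X} (hK : Cont K)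
    (hnt : K.Nontrivial) :
    ∃ Z : Set (X × X), Cont Z ∧ Prod.fst '' Z = K ∧ Prod.snd '' Z = K ∧
      ∀ p ∈ Z, ∀ D : Set X, Cont D → p.1 ∈ D → p.2 ∈ D → K ⊆ D := by
  unfold SpanZero at hns
  push Not at hns
  obtain ⟨Z₀, h1, h2, h3, h4⟩ := hns
  obtain ⟨Z, hZ, hZe, hZn, hZp⟩ := exists_minimal hHI ⟨h1, h2⟩ h3 h4
  set Y := Prod.fst '' Z with hY
  have hYc : Cont Y := hZ.fst
  obtain ⟨hy⟩ := hX Y hYc.1 hYc.2 hZn
  obtain ⟨hk⟩ := hX K hK.1 hK.2 hnt
  let φ : Y ≃ₜ K := hy.symm.trans hk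
  have hZY : Z ⊆ Y ×ˢ Y := by
    intro z hz
    refine ⟨mem_image_of_mem _ hz, ?_⟩
    rw [hZe]
    exact mem_image_of_mem _ hz
  refine ⟨_, hZ.transport hYc.1 φ hZY, ?_, ?_, ?_⟩
  · apply Subset.antisymm
    · rintro _ ⟨p, ⟨a, b, hab, rfl⟩, rfl⟩
      exact (φ a).2
    · intro k hk'
      have h5 : ((φ.symm ⟨k, hk'⟩ : Y) : X) ∈ Prod.fst '' Z := (φ.symm ⟨k, hk'⟩).2
      obtain ⟨z, hz, hzk⟩ := h5
      refine ⟨_, ⟨φ.symm ⟨k, hk'⟩, ⟨z.2, (hZY hz).2⟩, ?_, rfl⟩, ?_⟩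
      · rw [← hzk]; exact hz
      · simp
  · apply Subset.antisymm
    · rintro _ ⟨p, ⟨a, b, hab, rfl⟩, rfl⟩
      exact (φ b).2
    · intro k hk'
      have h5 : ((φ.symm ⟨k, hk'⟩ : Y) : X) ∈ Prod.snd '' Z := by
        rw [← hZe]; exact (φ.symm ⟨k, hk'⟩).2
      obtain ⟨z, hz, hzk⟩ := h5
      refine ⟨_, ⟨⟨z.1, (hZY hz).1⟩, φ.symm ⟨k, hk'⟩, ?_, rfl⟩, ?_⟩
      · rw [← hzk]; exact hz
      · simp
  · rintro _ ⟨a, b, hab, rfl⟩ D hD h5 h6
    rcases hHI _ _ hD hK ⟨_, h5, (φ a).2⟩ with h7 | h7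
    · have hD' : Cont (φ ⁻¹' ((↑) ⁻¹' D : Set K)) := (hD.preimage_val h7).preimage_homeo φ
      have hD'' := Cont.image_val hYc.1 hD'
      have h8 := hZp _ hab _ hD'' ⟨a, h5, rfl⟩ ⟨b, h6, rfl⟩
      intro k hk'
      obtain ⟨y, hy1, hy2⟩ := h8 (φ.symm ⟨k, hk'⟩).2
      have : y = φ.symm ⟨k, hk'⟩ := Subtype.ext hy2
      rw [this] at hy1
      simpa using hy1
    · exact h7

end Pool.Agent.HEC
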