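import Mathlib
import Pool.Agent.HEC.Irr

set_option autoImplicit false

open Set Filter Topology TopologicalSpace

namespace Pool.Agent.HEC

variable {X : Type*} [MetricSpace X]

theorem nc_infDist_tendsto {D : ℕ → NonemptyCompacts X} {D₀ : NonemptyCompacts X}
    (hD : Tendsto D atTop (𝓝 D₀)) {x : ℕ → X} {x₀ : X} (hx : Tendsto x atTop (𝓝 x₀)) :
    Tendsto (fun n => Metric.infDist (x n) (D n : Set X)) atTop
      (𝓝 (Metric.infDist x₀ (D₀ : Set X))) := by
  have hc : Continuous (fun p : X × NonemptyCompacts X => Metric.infDist p.1 (p.2 : Set X)) :=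
    Metric.lipschitz_infDist.continuous
  have := (hc.tendsto (x₀, D₀)).comp (hx.prodMk_nhds hD)
  exact this

theorem nc_mem_limit {D : ℕ → NonemptyCompacts X} {D₀ : NonemptyCompacts X}
    (hD : Tendsto D atTop (𝓝 D₀)) {x : ℕ → X} {x₀ : X} (hx : Tendsto x atTop (𝓝 x₀))
    (h : ∀ n, x n ∈ (D n : Set X)) : x₀ ∈ (D₀ : Set X) := by
  rw [D₀.isCompact.isClosed.mem_iff_infDist_zero D₀.nonempty]
  have h1 := nc_infDist_tendsto hD hx
  have h2 : (fun n => Metric.infDist (x n) (D n : Set X)) = fun _ => 0 := by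
    funext n
    exact Metric.infDist_zero_of_mem (h n)
  rw [h2] at h1
  exact tendsto_nhds_unique h1 tendsto_const_nhds

theorem nc_exists_seq {D : ℕ → NonemptyCompacts X} {D₀ : NonemptyCompacts X}
    (hD : Tendsto D atTop (𝓝 D₀)) {d : X} (hd : d ∈ (D₀ : Set X)) :
    ∃ e : ℕ → X, (∀ n, e n ∈ (D n : Set X)) ∧ Tendsto e atTop (𝓝 d) := by
  have h1 : ∀ n, ∃ y ∈ (D n : Set X), Metric.infDist d (D n : Set X) = dist d y := fun n =>
    (D n).isCompact.exists_infDist_eq_dist (D n).nonempty d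
  choose e he hed using h1
  refine ⟨e, he, ?_⟩
  have h2 := nc_infDist_tendsto hD (tendsto_const_nhds (x := d))
  rw [Metric.infDist_zero_of_mem hd] at h2
  rw [tendsto_iff_dist_tendsto_zero]
  have h3 : (fun n => dist (e n) d) = fun n => Metric.infDist d (D n : Set X) := by
    funext n
    rw [hed n, dist_comm]
  rw [h3]
  exact h2

theorem nc_connected_limit {D : ℕ → NonemptyCompacts X} {D₀ : NonemptyCompacts X}
    (hD : Tendsto D atTop (𝓝 D₀)) (h : ∀ n, IsConnected (D n : Set X)) :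
    IsConnected (D₀ : Set X) := by
  refine ⟨D₀.nonempty, ?_⟩
  rw [isPreconnected_closed_iff]
  intro A B hA hB hsub hneA hneB
  by_contra hcon
  rw [not_nonempty_iff_eq_empty] at hcon
  have hdisj : Disjoint ((D₀ : Set X) ∩ A) ((D₀ : Set X) ∩ B) := by
    rw [disjoint_iff_inter_eq_empty]
    rw [eq_empty_iff_forall_notMem] at hcon ⊢
    rintro x ⟨⟨h1, h2⟩, _, h3⟩
    exact hcon x ⟨h1, h2, h3⟩
  obtain ⟨U, V, hU, hV, hAU, hBV, hUV⟩ :=
    SeparatedNhds.of_isCompact_isCompact (D₀.isCompact.inter_right hA)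
      (D₀.isCompact.inter_right hB) hdisj
  have hsub' : (D₀ : Set X) ⊆ U ∪ V := by
    intro x hx
    rcases hsub hx with h1 | h1
    · exact Or.inl (hAU ⟨hx, h1⟩)
    · exact Or.inr (hBV ⟨hx, h1⟩)
  obtain ⟨r, hr, hthick⟩ := D₀.isCompact.exists_thickening_subset_open (hU.union hV) hsub'
  have hev : ∀ᶠ n in atTop, dist (D n) D₀ < r := by
    rw [Metric.tendsto_nhds] at hD
    exact hD r hr
  obtain ⟨a, ha, haA⟩ := hneA
  obtain ⟨b, hb, hbB⟩ := hneB
  obtain ⟨e, he, hea⟩ := nc_exists_seq hD ha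
  obtain ⟨f, hf, hfb⟩ := nc_exists_seq hD hb
  have hevU : ∀ᶠ n in atTop, e n ∈ U := hea (hU.mem_nhds (hAU ⟨ha, haA⟩))
  have hevV : ∀ᶠ n in atTop, f n ∈ V := hfb (hV.mem_nhds (hBV ⟨hb, hbB⟩))
  obtain ⟨n, hn1, hn2, hn3⟩ := (hev.and (hevU.and hevV)).exists
  have hDn : (D n : Set X) ⊆ U ∪ V := by
    intro x hx
    apply hthick
    rw [Metric.mem_thickening_iff]
    rw [Metric.NonemptyCompacts.dist_eq] at hn1
    exact Metric.exists_dist_lt_of_hausdorffDist_lt hx hn1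
      (Metric.hausdorffEDist_ne_top_of_nonempty_of_bounded (D n).nonempty D₀.nonempty
        (D n).isCompact.isBounded D₀.isCompact.isBounded)
  obtain ⟨x, hx, hxU, hxV⟩ := (h n).isPreconnected U V hU hV hDn ⟨e n, he n, hn2⟩ ⟨f n, hf n, hn3⟩
  exact Set.disjoint_left.1 hUV hxU hxV

theorem nc_far_limit {D : ℕ → NonemptyCompacts X} {D₀ : NonemptyCompacts X}
    (hD : Tendsto D atTop (𝓝 D₀)) {z : ℕ → X} {z₀ : X} (hz : Tendsto z atTop (𝓝 z₀)) {ρ : ℝ}
    (h : ∀ n, ∀ d ∈ (D n : Set X), ρ ≤ dist (z n) d) : ∀ d ∈ (D₀ : Set X), ρ ≤ dist z₀ d := by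
  intro d hd
  obtain ⟨e, he, hed⟩ := nc_exists_seq hD hd
  exact ge_of_tendsto' (hz.dist hed) (fun n => h n _ (he n))

end Pool.Agent.HEC
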