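import Mathlib
import Pool.Agent.HEC.Lim

set_option autoImplicit false

open Set Filter Topology TopologicalSpace

namespace Pool.Agent.HEC

/-- `(ε, ρ)`-thinness of a continuum `L`: every continuum `Z ⊆ L × L` with equal projections
contains a pair `(x, y)` with `x` and `y` within `ε` of two subcontinua `D`, `E` of `X` which come
within `ε` of each other and are both `ρ`-far from some point of `L`. -/
def Thin {X : Type*} [MetricSpace X] (L : Set X) (ε ρ : ℝ) : Prop :=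
  ∀ Z : Set (X × X), Cont Z → Z ⊆ L ×ˢ L → Prod.fst '' Z = Prod.snd '' Z →
    ∃ p ∈ Z, ∃ D E : Set X, Cont D ∧ Cont E ∧ (∃ a ∈ D, dist p.1 a < ε) ∧
      (∃ b ∈ E, dist p.2 b < ε) ∧ (∃ a ∈ D, ∃ b ∈ E, dist a b < ε) ∧
      (∃ z ∈ L, ∀ d ∈ D, ρ ≤ dist z d) ∧ (∃ z ∈ L, ∀ d ∈ E, ρ ≤ dist z d)

section

variable {X : Type*} [MetricSpace X]

theorem Thin.mono {L : Set X} {ε ε' ρ ρ' : ℝ} (h : Thin L ε ρ) (hε : ε ≤ ε') (hρ : ρ' ≤ ρ) :
    Thin L ε' ρ' := by
  intro Z hZ hZL hZe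
  obtain ⟨p, hp, D, E, hD, hE, ⟨a, ha, ha'⟩, ⟨b, hb, hb'⟩, ⟨c, hc, e, he, hce⟩, ⟨z, hz, hz'⟩,
    ⟨w, hw, hw'⟩⟩ := h Z hZ hZL hZe
  exact ⟨p, hp, D, E, hD, hE, ⟨a, ha, ha'.trans_le hε⟩, ⟨b, hb, hb'.trans_le hε⟩,
    ⟨c, hc, e, he, hce.trans_le hε⟩, ⟨z, hz, fun d hd => hρ.trans (hz' d hd)⟩,
    ⟨w, hw, fun d hd => hρ.trans (hw' d hd)⟩⟩

theorem DenseIn.mono {L K : Set X} {ε ε' : ℝ} (h : DenseIn L K ε) (hε : ε ≤ ε') :
    DenseIn L K ε' := by
  intro x hx
  obtain ⟨y, hy, hxy⟩ := h x hx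
  exact ⟨y, hy, hxy.trans_le hε⟩

theorem DenseIn.trans {L K M : Set X} {ε ε' : ℝ} (h : DenseIn L K ε) (h' : DenseIn K M ε') :
    DenseIn L M (ε + ε') := by
  intro x hx
  obtain ⟨y, hy, hxy⟩ := h' x hx
  obtain ⟨z, hz, hyz⟩ := h y hy
  exact ⟨z, hz, by linarith [dist_triangle x y z]⟩

variable [CompactSpace X]

/-- Limits of thinness witnesses. -/
theorem witness_limit {K : ℕ → Set X} (hK : ∀ n, Cont (K n)) (hanti : ∀ n, K (n + 1) ⊆ K n)
    {Z : Set (X × X)} (hZc : Cont Z) {ρ : ℝ} {ε : ℕ → ℝ} (hε : Tendsto ε atTop (𝓝 0))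
    (h : ∀ n, ∃ p ∈ Z, ∃ D E : Set X, Cont D ∧ Cont E ∧ (∃ a ∈ D, dist p.1 a < ε n) ∧
      (∃ b ∈ E, dist p.2 b < ε n) ∧ (∃ a ∈ D, ∃ b ∈ E, dist a b < ε n) ∧
      (∃ z ∈ K n, ∀ d ∈ D, ρ ≤ dist z d) ∧ (∃ z ∈ K n, ∀ d ∈ E, ρ ≤ dist z d)) :
    ∃ p ∈ Z, ∃ D E : Set X, Cont D ∧ Cont E ∧ p.1 ∈ D ∧ p.2 ∈ E ∧ (D ∩ E).Nonempty ∧
      (∃ z, (∀ n, z ∈ K n) ∧ ∀ d ∈ D, ρ ≤ dist z d) ∧
      (∃ z, (∀ n, z ∈ K n) ∧ ∀ d ∈ E, ρ ≤ dist z d) := by
  choose p hp D E hD hE a b c z w using h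
  choose a ha ha' using a
  choose b hb hb' using b
  choose c hc e he hce using c
  choose z hz hz' using z
  choose w hw hw' using w
  let D' : ℕ → NonemptyCompacts X := fun n => ⟨⟨D n, (hD n).1.isCompact⟩, (hD n).2.nonempty⟩
  let E' : ℕ → NonemptyCompacts X := fun n => ⟨⟨E n, (hE n).1.isCompact⟩, (hE n).2.nonempty⟩
  have hD'E : ∀ n, (D' n : Set X) = D n := fun n => rfl
  have hE'E : ∀ n, (E' n : Set X) = E n := fun n => rfl
  let s : ℕ → (X × X) × (NonemptyCompacts X × NonemptyCompacts X) × (X × X) × (X × X) × (X × X) :=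
    fun n => (p n, (D' n, E' n), (a n, b n), (c n, e n), (z n, w n))
  obtain ⟨q, φ, hφ, hq⟩ := CompactSpace.tendsto_subseq s
  obtain ⟨p₀, ⟨D₀, E₀⟩, ⟨a₀, b₀⟩, ⟨c₀, e₀⟩, ⟨z₀, w₀⟩⟩ := q
  have hq1 : Tendsto (fun n => p (φ n)) atTop (𝓝 p₀) := (continuous_fst.tendsto _).comp hq
  have hqD : Tendsto (fun n => D' (φ n)) atTop (𝓝 D₀) :=
    ((continuous_fst.comp (continuous_fst.comp continuous_snd)).tendsto _).comp hq
  have hqE : Tendsto (fun n => E' (φ n)) atTop (𝓝 E₀) :=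
    ((continuous_snd.comp (continuous_fst.comp continuous_snd)).tendsto _).comp hq
  have hqa : Tendsto (fun n => a (φ n)) atTop (𝓝 a₀) :=
    ((continuous_fst.comp (continuous_fst.comp (continuous_snd.comp continuous_snd))).tendsto
      _).comp hq
  have hqb : Tendsto (fun n => b (φ n)) atTop (𝓝 b₀) :=
    ((continuous_snd.comp (continuous_fst.comp (continuous_snd.comp continuous_snd))).tendsto
      _).comp hq
  have hqc : Tendsto (fun n => c (φ n)) atTop (𝓝 c₀) :=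
    ((continuous_fst.comp (continuous_fst.comp (continuous_snd.comp (continuous_snd.comp
      continuous_snd)))).tendsto _).comp hq
  have hqe : Tendsto (fun n => e (φ n)) atTop (𝓝 e₀) :=
    ((continuous_snd.comp (continuous_fst.comp (continuous_snd.comp (continuous_snd.comp
      continuous_snd)))).tendsto _).comp hq
  have hqz : Tendsto (fun n => z (φ n)) atTop (𝓝 z₀) :=
    ((continuous_fst.comp (continuous_snd.comp (continuous_snd.comp (continuous_snd.comp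
      continuous_snd)))).tendsto _).comp hq
  have hqw : Tendsto (fun n => w (φ n)) atTop (𝓝 w₀) :=
    ((continuous_snd.comp (continuous_snd.comp (continuous_snd.comp (continuous_snd.comp
      continuous_snd)))).tendsto _).comp hq
  have hεφ : Tendsto (fun n => ε (φ n)) atTop (𝓝 0) := hε.comp hφ.tendsto_atTop
  have hmono : ∀ m n, m ≤ n → K n ⊆ K m := by
    intro m n hmn
    induction n, hmn using Nat.le_induction with
    | base => exact subset_rfl
    | succ n _ ih => exact (hanti n).trans ih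
  have hlim0 : ∀ u v : ℕ → X, ∀ u₀ v₀ : X, Tendsto u atTop (𝓝 u₀) → Tendsto v atTop (𝓝 v₀) →
      (∀ n, dist (u n) (v n) < ε (φ n)) → u₀ = v₀ := by
    intro u v u₀ v₀ hu hv huv
    have h1 : Tendsto (fun n => dist (u n) (v n)) atTop (𝓝 (dist u₀ v₀)) := hu.dist hv
    have h2 : dist u₀ v₀ ≤ 0 := le_of_tendsto_of_tendsto' h1 hεφ (fun n => (huv n).le)
    exact dist_le_zero.1 h2
  have hp1 : Tendsto (fun n => (p (φ n)).1) atTop (𝓝 p₀.1) := (continuous_fst.tendsto p₀).comp hq1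
  have hp2 : Tendsto (fun n => (p (φ n)).2) atTop (𝓝 p₀.2) := (continuous_snd.tendsto p₀).comp hq1
  have haD : a₀ ∈ (D₀ : Set X) := nc_mem_limit hqD hqa (fun n => ha (φ n))
  have hbE : b₀ ∈ (E₀ : Set X) := nc_mem_limit hqE hqb (fun n => hb (φ n))
  have hcD : c₀ ∈ (D₀ : Set X) := nc_mem_limit hqD hqc (fun n => hc (φ n))
  have heE : e₀ ∈ (E₀ : Set X) := nc_mem_limit hqE hqe (fun n => he (φ n))
  have h1 : p₀.1 = a₀ := hlim0 _ _ _ _ hp1 hqa (fun n => ha' (φ n))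
  have h2 : p₀.2 = b₀ := hlim0 _ _ _ _ hp2 hqb (fun n => hb' (φ n))
  have h3 : c₀ = e₀ := hlim0 _ _ _ _ hqc hqe (fun n => hce (φ n))
  have hmemK : ∀ u : ℕ → X, ∀ u₀ : X, Tendsto (fun n => u (φ n)) atTop (𝓝 u₀) →
      (∀ n, u n ∈ K n) → ∀ n, u₀ ∈ K n := by
    intro u u₀ hu huK n
    apply (hK n).1.mem_of_tendsto hu
    filter_upwards [hφ.tendsto_atTop.eventually_ge_atTop n] with m hm
    exact hmono n (φ m) hm (huK (φ m))
  refine ⟨p₀, ?_, D₀, E₀, ⟨D₀.isCompact.isClosed, ?_⟩, ⟨E₀.isCompact.isClosed, ?_⟩, ?_, ?_,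
    ⟨c₀, hcD, ?_⟩, ⟨z₀, ?_, ?_⟩, ⟨w₀, ?_, ?_⟩⟩
  · exact hZc.1.mem_of_tendsto hq1 (Eventually.of_forall (fun n => hp (φ n)))
  · exact nc_connected_limit hqD (fun n => (hD (φ n)).2)
  · exact nc_connected_limit hqE (fun n => (hE (φ n)).2)
  · rw [h1]; exact haD
  · rw [h2]; exact hbE
  · rw [h3]; exact heE
  · exact hmemK z z₀ hqz hz
  · exact nc_far_limit hqD hqz (fun n => hz' (φ n))
  · exact hmemK w w₀ hqw hw
  · exact nc_far_limit hqE hqw (fun n => hw' (φ n))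

/-- Nested intersections of continua with geometrically decaying density. -/
theorem nested {K : ℕ → Set X} (hK : ∀ n, Cont (K n)) (hanti : ∀ n, K (n + 1) ⊆ K n)
    {γ : ℕ → ℝ} (hγ : ∀ n, γ (n + 1) ≤ γ n / 2) (hd : ∀ n, DenseIn (K (n + 1)) (K n) (γ n)) :
    Cont (⋂ n, K n) ∧ ∀ n, ∀ x ∈ K n, ∃ y ∈ ⋂ n, K n, dist x y ≤ 2 * γ n := by
  have hmono : ∀ m n, m ≤ n → K n ⊆ K m := by
    intro m n hmn
    induction n, hmn using Nat.le_induction with
    | base => exact subset_rfl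
    | succ n _ ih => exact (hanti n).trans ih
  constructor
  · have := cont_sInter_chain (range K) (range_nonempty K) (by
      rintro _ ⟨m, rfl⟩ _ ⟨n, rfl⟩ _
      rcases le_total m n with h | h
      · exact Or.inr (hmono m n h)
      · exact Or.inl (hmono n m h)) (by
      rintro _ ⟨n, rfl⟩
      exact hK n)
    rwa [sInter_range] at this
  intro n x hx
  have hγpos : 0 ≤ γ n := by
    obtain ⟨y, _, hy⟩ := hd n x hx
    exact dist_nonneg.trans hy.le
  have hγm : ∀ m, γ (n + m) ≤ γ n * (1 / 2) ^ m := by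
    intro m
    induction m with
    | zero => simp
    | succ m ih =>
      have h1 := hγ (n + m)
      have h2 : n + (m + 1) = n + m + 1 := by ring
      rw [h2, pow_succ]
      linarith
  have hex : ∀ m, ∃ y ∈ K (n + m), dist x y ≤ 2 * γ n * (1 - (1 / 2) ^ m) := by
    intro m
    induction m with
    | zero => exact ⟨x, hx, by simp⟩
    | succ m ih =>
      obtain ⟨y, hy, hxy⟩ := ih
      obtain ⟨y', hy', hyy'⟩ := hd (n + m) y hy
      refine ⟨y', hy', ?_⟩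
      have h1 := dist_triangle x y y'
      have h2 := hγm m
      rw [pow_succ]
      nlinarith
  have hne : (⋂ m, (K (n + m) ∩ Metric.closedBall x (2 * γ n))).Nonempty := by
    apply IsCompact.nonempty_iInter_of_directed_nonempty_isCompact_isClosed
    · apply directed_of_isDirected_le
      intro i j hij
      exact inter_subset_inter_left _ (hmono _ _ (by omega))
    · intro m
      obtain ⟨y, hy, hxy⟩ := hex m
      refine ⟨y, hy, ?_⟩
      rw [Metric.mem_closedBall, dist_comm]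
      have h1 : (0 : ℝ) ≤ (1 / 2) ^ m := by positivity
      nlinarith
    · intro m
      exact ((hK _).1.inter Metric.isClosed_closedBall).isCompact
    · intro m
      exact (hK _).1.inter Metric.isClosed_closedBall
  obtain ⟨y, hy⟩ := hne
  rw [mem_iInter] at hy
  refine ⟨y, ?_, ?_⟩
  · rw [mem_iInter]
    intro m
    exact hmono m (n + m) (by omega) (hy m).1
  · have := (hy 0).2
    rwa [Metric.mem_closedBall, dist_comm] at this

end

end Pool.Agent.HEC
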