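import Mathlib
import Pool.Agent.HEC.ChainDefs
import Pool.Agent.HEC.Engine

set_option autoImplicit false

open Set Filter Topology TopologicalSpace

namespace Pool.Agent.HEC

/-- `(ε, ρ, k)`-thinness of a continuum `L`. -/
def ThinK {X : Type*} [MetricSpace X] (L : Set X) (ε ρ : ℝ) (k : ℕ) : Prop :=
  ∀ Z : Set (X × X), Cont Z → Z ⊆ L ×ˢ L → Prod.fst '' Z = Prod.snd '' Z →
    ∃ p ∈ Z, KJoined L ε ρ k p.1 p.2

theorem rtg_map {α β : Type*} {r : α → α → Prop} {q : β → β → Prop} (f : α → β)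
    (h : ∀ a b, r a b → q (f a) (f b)) {x y : α} (hxy : Relation.ReflTransGen r x y) :
    Relation.ReflTransGen q (f x) (f y) := by
  induction hxy with
  | refl => exact Relation.ReflTransGen.refl
  | tail _ hbc ih => exact Relation.ReflTransGen.tail ih (h _ _ hbc)

variable {X : Type*} [MetricSpace X]

theorem FarJoined.mono {L L' : Set X} {ε ε' ρ ρ' : ℝ} {x y : X} (h : FarJoined L ε ρ x y)
    (hL : L ⊆ L') (hε : ε ≤ ε') (hρ : ρ' ≤ ρ) : FarJoined L' ε' ρ' x y := by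
  obtain ⟨z, hz, hzx, hc⟩ := h
  exact ⟨z, hL hz, hρ.trans hzx,
    rtg_map (fun a => a) (fun u v h => ⟨h.1.trans_le hε, hρ.trans h.2⟩) hc⟩

theorem KJoined.mono {L L' : Set X} {ε ε' ρ ρ' : ℝ} {k : ℕ} {x y : X}
    (h : KJoined L ε ρ k x y) (hL : L ⊆ L') (hε : ε ≤ ε') (hρ : ρ' ≤ ρ) :
    KJoined L' ε' ρ' k x y := by
  obtain ⟨u, h0, hk, hu⟩ := h
  exact ⟨u, h0, hk, fun i hi => (hu i hi).mono hL hε hρ⟩

theorem ThinK.mono {L : Set X} {ε ε' ρ ρ' : ℝ} {k : ℕ} (h : ThinK L ε ρ k) (hε : ε ≤ ε')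
    (hρ : ρ' ≤ ρ) : ThinK L ε' ρ' k := by
  intro Z hZ hZL hZe
  obtain ⟨p, hp, hj⟩ := h Z hZ hZL hZe
  exact ⟨p, hp, hj.mono subset_rfl hε hρ⟩

/-- The chain component is closed and chained. -/
theorem FarJoined.exists_set {L : Set X} {ε ρ : ℝ} (hε : 0 < ε) {x y : X}
    (h : FarJoined L ε ρ x y) :
    ∃ z ∈ L, ∃ D : Set X, IsClosed D ∧ x ∈ D ∧ y ∈ D ∧ (∀ d ∈ D, ρ ≤ dist z d) ∧
      ∀ v ∈ D, Relation.ReflTransGen (fun u v => dist u v < ε ∧ v ∈ D) x v := by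
  obtain ⟨z, hz, hzx, hc⟩ := h
  set R : X → X → Prop := fun u v => dist u v < ε ∧ ρ ≤ dist z v with hR
  set D : Set X := {v | Relation.ReflTransGen R x v} with hD
  have hfar : ∀ d ∈ D, ρ ≤ dist z d := by
    intro d hd
    rcases Relation.ReflTransGen.cases_tail hd with h1 | ⟨c, _, h1⟩
    · rw [h1]; exact hzx
    · exact h1.2
  refine ⟨z, hz, D, ?_, Relation.ReflTransGen.refl, hc, hfar, ?_⟩
  · apply isClosed_of_closure_subset
    intro v hv
    have hvfar : ρ ≤ dist z v := by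
      have : closure D ⊆ {d | ρ ≤ dist z d} :=
        closure_minimal hfar (isClosed_le continuous_const (by fun_prop))
      exact this hv
    obtain ⟨w, hw, hvw⟩ := Metric.mem_closure_iff.1 hv ε hε
    exact Relation.ReflTransGen.tail hw ⟨by rw [dist_comm]; exact hvw, hvfar⟩
  · intro v hv
    induction hv with
    | refl => exact Relation.ReflTransGen.refl
    | @tail b c hb hbc ih =>
      exact Relation.ReflTransGen.tail ih ⟨hbc.1, Relation.ReflTransGen.tail hb hbc⟩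

/-- Limits of chained compact sets are connected. -/
theorem nc_chained_limit {D : ℕ → NonemptyCompacts X} {D₀ : NonemptyCompacts X}
    (hD : Tendsto D atTop (𝓝 D₀)) {ε : ℕ → ℝ} (hε : Tendsto ε atTop (𝓝 0)) {x : ℕ → X}
    (hx : ∀ n, x n ∈ (D n : Set X))
    (h : ∀ n, ∀ v ∈ (D n : Set X),
      Relation.ReflTransGen (fun u v => dist u v < ε n ∧ v ∈ (D n : Set X)) (x n) v) :
    IsConnected (D₀ : Set X) := by
  refine ⟨D₀.nonempty, ?_⟩
  rw [isPreconnected_closed_iff]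
  intro A B hA hB hsub hneA hneB
  by_contra hcon
  rw [not_nonempty_iff_eq_empty] at hcon
  have hdisj : Disjoint ((D₀ : Set X) ∩ A) ((D₀ : Set X) ∩ B) := by
    rw [disjoint_iff_inter_eq_empty]
    rw [eq_empty_iff_forall_notMem] at hcon ⊢
    rintro x ⟨⟨h1, h2⟩, _, h3⟩
    exact hcon x ⟨h1, h2, h3⟩
  obtain ⟨r, hr, hrd⟩ := Metric.exists_pos_forall_lt_edist (D₀.isCompact.inter_right hA)
    (D₀.isCompact.inter_right hB).isClosed hdisj
  have hrd' : ∀ a ∈ (D₀ : Set X) ∩ A, ∀ b ∈ (D₀ : Set X) ∩ B, (r : ℝ) ≤ dist a b := by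
    intro a ha b hb
    have := (hrd a ha b hb).le
    rw [edist_nndist] at this
    have h2 : r ≤ nndist a b := by exact_mod_cast this
    exact_mod_cast h2
  have hr' : (0 : ℝ) < r := by exact_mod_cast hr
  obtain ⟨a, ha, haA⟩ := hneA
  obtain ⟨b, hb, hbB⟩ := hneB
  obtain ⟨e, he, hea⟩ := nc_exists_seq hD ha
  obtain ⟨f, hf, hfb⟩ := nc_exists_seq hD hb
  have hev1 : ∀ᶠ n in atTop, dist (D n) D₀ < r / 4 := by
    rw [Metric.tendsto_nhds] at hD
    exact hD _ (by positivity)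
  have hev2 : ∀ᶠ n in atTop, ε n < r / 4 := by
    rw [Metric.tendsto_nhds] at hε
    filter_upwards [hε (r / 4) (by positivity)] with n hn
    rw [Real.dist_eq, sub_zero] at hn
    exact (le_abs_self _).trans_lt hn
  have hev3 : ∀ᶠ n in atTop, dist (e n) a < r / 4 := by
    rw [Metric.tendsto_nhds] at hea
    exact hea _ (by positivity)
  have hev4 : ∀ᶠ n in atTop, dist (f n) b < r / 4 := by
    rw [Metric.tendsto_nhds] at hfb
    exact hfb _ (by positivity)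
  obtain ⟨n, hn1, hn2, hn3, hn4⟩ := (hev1.and (hev2.and (hev3.and hev4))).exists
  -- every point of `D n` is close to `A ∩ D₀` or to `B ∩ D₀`
  have hclose : ∀ v ∈ (D n : Set X), ∃ w ∈ (D₀ : Set X), dist v w < r / 4 := by
    intro v hv
    rw [Metric.NonemptyCompacts.dist_eq] at hn1
    exact Metric.exists_dist_lt_of_hausdorffDist_lt hv hn1
      (Metric.hausdorffEDist_ne_top_of_nonempty_of_bounded (D n).nonempty D₀.nonempty
        (D n).isCompact.isBounded D₀.isCompact.isBounded)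
  -- the side of the starting point propagates
  have prop : ∀ S T : Set X, (D₀ : Set X) ⊆ S ∪ T →
      (∀ s ∈ (D₀ : Set X) ∩ S, ∀ t ∈ (D₀ : Set X) ∩ T, (r : ℝ) ≤ dist s t) →
      (∃ w ∈ (D₀ : Set X) ∩ S, dist (x n) w < r / 4) → ∀ v ∈ (D n : Set X),
      ∃ w ∈ (D₀ : Set X) ∩ S, dist v w < r / 4 := by
    intro S T hST hdist h0 v hv
    have := h n v hv
    clear hv
    induction this with
    | refl => exact h0
    | @tail b c _ hbc ih =>
      obtain ⟨w, hw, hbw⟩ := ih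
      obtain ⟨w', hw', hcw'⟩ := hclose c hbc.2
      rcases hST hw' with h1 | h1
      · exact ⟨w', ⟨hw', h1⟩, hcw'⟩
      · have h2 := hdist w hw w' ⟨hw', h1⟩
        have h3 := dist_triangle w b w'
        have h4 := dist_triangle b c w'
        have h5 := hbc.1
        rw [dist_comm w b] at h3
        linarith
  have cross : ∀ S T : Set X, (D₀ : Set X) ⊆ S ∪ T →
      (∀ s ∈ (D₀ : Set X) ∩ S, ∀ t ∈ (D₀ : Set X) ∩ T, (r : ℝ) ≤ dist s t) →
      (∃ w ∈ (D₀ : Set X) ∩ S, dist (x n) w < r / 4) → ∀ t ∈ (D₀ : Set X) ∩ T,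
      ∀ v ∈ (D n : Set X), dist v t < r / 4 → False := by
    intro S T hST hdist h0 t ht v hv hvt
    obtain ⟨w, hw, hvw⟩ := prop S T hST hdist h0 v hv
    have h1 := hdist w hw t ht
    have h2 := dist_triangle w v t
    rw [dist_comm w v] at h2
    linarith
  obtain ⟨w, hw, hxw⟩ := hclose (x n) (hx n)
  rcases hsub hw with hwA | hwB
  · exact cross A B hsub hrd' ⟨w, ⟨hw, hwA⟩, hxw⟩ b ⟨hb, hbB⟩ (f n) (hf n) hn4
  · exact cross B A (by rw [union_comm]; exact hsub)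
      (fun s hs t ht => by rw [dist_comm]; exact hrd' t ht s hs) ⟨w, ⟨hw, hwB⟩, hxw⟩ a ⟨ha, haA⟩
      (e n) (he n) hn3

variable [CompactSpace X]

/-- Limits of thinness witnesses. -/
theorem witness_limitK {K : ℕ → Set X} (hK : ∀ n, Cont (K n)) (hanti : ∀ n, K (n + 1) ⊆ K n)
    {Z : Set (X × X)} (hZc : Cont Z) {ρ : ℝ} {ε : ℕ → ℝ} (hε0 : ∀ n, 0 < ε n)
    (hε : Tendsto ε atTop (𝓝 0)) {k : ℕ}
    (h : ∀ n, ∃ p ∈ Z, KJoined (K n) (ε n) ρ k p.1 p.2) :
    ∃ p ∈ Z, ∃ u : ℕ → X, u 0 = p.1 ∧ u k = p.2 ∧ ∀ i < k, ∃ D : Set X, Cont D ∧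
      u i ∈ D ∧ u (i + 1) ∈ D ∧ ∃ z, (∀ n, z ∈ K n) ∧ ∀ d ∈ D, ρ ≤ dist z d := by
  classical
  choose p hp u hu0 huk hj using h
  have hfam : ∀ n i, ∃ (z : X) (D : NonemptyCompacts X), i < k → z ∈ K n ∧
      u n i ∈ (D : Set X) ∧ u n (i + 1) ∈ (D : Set X) ∧ (∀ d ∈ (D : Set X), ρ ≤ dist z d) ∧
      ∀ v ∈ (D : Set X), Relation.ReflTransGen
        (fun a b => dist a b < ε n ∧ b ∈ (D : Set X)) (u n i) v := by
    intro n i
    by_cases hi : i < k
    · obtain ⟨z, hz, D, hD, h1, h2, h3, h4⟩ := (hj n i hi).exists_set (hε0 n)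
      exact ⟨z, ⟨⟨D, hD.isCompact⟩, ⟨_, h1⟩⟩, fun _ => ⟨hz, h1, h2, h3, h4⟩⟩
    · exact ⟨(p n).1, ⟨⟨{(p n).1}, isCompact_singleton⟩, ⟨_, rfl⟩⟩, fun h => absurd h hi⟩
  choose z D hzD using hfam
  let s : ℕ → (X × X) × (ℕ → X) × (ℕ → X) × (ℕ → NonemptyCompacts X) :=
    fun n => (p n, u n, z n, D n)
  obtain ⟨q, φ, hφ, hq⟩ := CompactSpace.tendsto_subseq s
  obtain ⟨p₀, u₀, z₀, D₀⟩ := q
  have hq1 : Tendsto (fun n => p (φ n)) atTop (𝓝 p₀) := (continuous_fst.tendsto _).comp hq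
  have hqu : Tendsto (fun n => u (φ n)) atTop (𝓝 u₀) :=
    ((continuous_fst.comp continuous_snd).tendsto _).comp hq
  have hqz : Tendsto (fun n => z (φ n)) atTop (𝓝 z₀) :=
    ((continuous_fst.comp (continuous_snd.comp continuous_snd)).tendsto _).comp hq
  have hqD : Tendsto (fun n => D (φ n)) atTop (𝓝 D₀) :=
    ((continuous_snd.comp (continuous_snd.comp continuous_snd)).tendsto _).comp hq
  rw [tendsto_pi_nhds] at hqu hqz hqD
  have hεφ : Tendsto (fun n => ε (φ n)) atTop (𝓝 0) := hε.comp hφ.tendsto_atTop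
  have hmono : ∀ m n, m ≤ n → K n ⊆ K m := by
    intro m n hmn
    induction n, hmn using Nat.le_induction with
    | base => exact subset_rfl
    | succ n _ ih => exact (hanti n).trans ih
  have hp1 : Tendsto (fun n => (p (φ n)).1) atTop (𝓝 p₀.1) := (continuous_fst.tendsto p₀).comp hq1
  have hp2 : Tendsto (fun n => (p (φ n)).2) atTop (𝓝 p₀.2) := (continuous_snd.tendsto p₀).comp hq1
  refine ⟨p₀, hZc.1.mem_of_tendsto hq1 (Eventually.of_forall (fun n => hp (φ n))), u₀, ?_, ?_, ?_⟩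
  · have h1 := hqu 0
    simp only [hu0] at h1
    exact tendsto_nhds_unique h1 hp1
  · have h1 := hqu k
    simp only [huk] at h1
    exact tendsto_nhds_unique h1 hp2
  · intro i hi
    refine ⟨D₀ i, ⟨(D₀ i).isCompact.isClosed, ?_⟩, ?_, ?_, z₀ i, ?_, ?_⟩
    · exact nc_chained_limit (hqD i) hεφ (fun n => (hzD (φ n) i hi).2.1)
        (fun n => (hzD (φ n) i hi).2.2.2.2)
    · exact nc_mem_limit (hqD i) (hqu i) (fun n => (hzD (φ n) i hi).2.1)
    · exact nc_mem_limit (hqD i) (hqu (i + 1)) (fun n => (hzD (φ n) i hi).2.2.1)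
    · intro n
      apply (hK n).1.mem_of_tendsto (hqz i)
      filter_upwards [hφ.tendsto_atTop.eventually_ge_atTop n] with m hm
      exact hmono n (φ m) hm (hzD (φ m) i hi).1
    · exact nc_far_limit (hqD i) (hqz i) (fun n => (hzD (φ n) i hi).2.2.2.1)

omit [CompactSpace X] in
/-- In a hereditarily indecomposable space a chain of continua is absorbed by one of them. -/
theorem chain_absorb (hHI : HI X) {u : ℕ → X} {k : ℕ} {P : Set X → Prop}
    (h : ∀ i < k + 1, ∃ D : Set X, Cont D ∧ u i ∈ D ∧ u (i + 1) ∈ D ∧ P D) :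
    ∃ D : Set X, Cont D ∧ u 0 ∈ D ∧ u (k + 1) ∈ D ∧ P D := by
  induction k with
  | zero => exact h 0 (by omega)
  | succ k ih =>
    obtain ⟨D, hD, h0, hk, hP⟩ := ih (fun i hi => h i (by omega))
    obtain ⟨E, hE, h1, h2, hPE⟩ := h (k + 1) (by omega)
    rcases hHI D E hD hE ⟨_, hk, h1⟩ with h3 | h3
    · exact ⟨E, hE, h3 h0, h2, hPE⟩
    · exact ⟨D, hD, h0, h3 h2, hP⟩

end Pool.Agent.HEC
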