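import Mathlib
import Pool.Agent.HEC.Chain
import Pool.Agent.HEC.Engine2

set_option autoImplicit false

open Set Filter Topology TopologicalSpace

namespace Pool.Agent.HEC

variable {X : Type*} [MetricSpace X] [CompactSpace X]

theorem transferK (hX : HE X) {k : ℕ}
    (h : ∃ ρ > 0, ∀ ε > 0, ∃ L : Set X, Cont L ∧ DenseIn L univ ε ∧ ThinK L ε ρ k)
    {K : Set X} (hK : Cont K) (hnt : K.Nontrivial) :
    ∃ ρ > 0, ∀ ε > 0, ∃ L ⊆ K, Cont L ∧ DenseIn L K ε ∧ ThinK L ε ρ k := by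
  obtain ⟨ρ, hρ, h⟩ := h
  obtain ⟨hh⟩ := hX K hK.1 hK.2 hnt
  have : CompactSpace K := isCompact_iff_compactSpace.1 hK.1.isCompact
  have hu1 : UniformContinuous (fun x => (hh x : X)) :=
    CompactSpace.uniformContinuous_of_continuous (by fun_prop)
  have hu2 : UniformContinuous (fun a : K => hh.symm a) :=
    CompactSpace.uniformContinuous_of_continuous (by fun_prop)
  rw [Metric.uniformContinuous_iff] at hu1 hu2
  obtain ⟨ρ', hρ', hρρ'⟩ := hu2 ρ hρ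
  refine ⟨ρ', hρ', fun ε' hε' => ?_⟩
  obtain ⟨ε, hε, hεε'⟩ := hu1 ε' hε'
  obtain ⟨L, hL, hLd, hLt⟩ := h ε hε
  have hcont : Continuous (fun x => (hh x : X)) := by fun_prop
  refine ⟨(fun x => (hh x : X)) '' L, ?_, hL.image hcont.continuousOn, ?_, ?_⟩
  · rintro _ ⟨x, _, rfl⟩
    exact (hh x).2
  · intro k hk
    obtain ⟨y, hy, hxy⟩ := hLd (hh.symm ⟨k, hk⟩) (mem_univ _)
    refine ⟨_, mem_image_of_mem _ hy, ?_⟩
    have := hεε' hxy
    simpa using this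
  · intro Z' hZ' hZ'L hZ'e
    have hL'K : (fun x => (hh x : X)) '' L ⊆ K := by
      rintro _ ⟨x, _, rfl⟩
      exact (hh x).2
    have hZ'K : Z' ⊆ K ×ˢ K := fun z hz => ⟨hL'K (hZ'L hz).1, hL'K (hZ'L hz).2⟩
    let φ : K ≃ₜ (univ : Set X) := hh.symm.trans (Homeomorph.Set.univ X).symm
    have hφ : ∀ a : K, ((φ a : (univ : Set X)) : X) = hh.symm a := fun a => rfl
    have hZ := hZ'.transport hK.1 φ hZ'K
    obtain ⟨p, ⟨a, b, hab, hp⟩, u, hu0, huk, hu⟩ := hLt _ hZ (by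
        rintro _ ⟨a, b, hab, rfl⟩
        obtain ⟨⟨x, hx, hxa⟩, ⟨y, hy, hyb⟩⟩ := hZ'L hab
        constructor
        · have : hh x = a := Subtype.ext hxa
          show (φ a : X) ∈ L
          rw [hφ, ← this]
          simpa using hx
        · have : hh y = b := Subtype.ext hyb
          show (φ b : X) ∈ L
          rw [hφ, ← this]
          simpa using hy) (by
        ext x
        constructor
        · rintro ⟨_, ⟨a, b, hab, rfl⟩, rfl⟩
          have h1 : (a : X) ∈ Prod.snd '' Z' := by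
            rw [← hZ'e]; exact ⟨_, hab, rfl⟩
          obtain ⟨q, hq, hqa⟩ := h1
          refine ⟨_, ⟨⟨q.1, (hZ'K hq).1⟩, a, ?_, rfl⟩, rfl⟩
          rw [← hqa]; exact hq
        · rintro ⟨_, ⟨a, b, hab, rfl⟩, rfl⟩
          have h1 : (b : X) ∈ Prod.fst '' Z' := by
            rw [hZ'e]; exact ⟨_, hab, rfl⟩
          obtain ⟨q, hq, hqa⟩ := h1
          refine ⟨_, ⟨b, ⟨q.2, (hZ'K hq).2⟩, ?_, rfl⟩, rfl⟩
          rw [← hqa]; exact hq)
    subst hp
    have hfar : ∀ x y : X, ρ ≤ dist x y → ρ' ≤ dist (hh x : X) (hh y : X) := by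
      intro x y hxy
      by_contra hlt
      push Not at hlt
      have := hρρ' (show dist (hh x) (hh y) < ρ' from hlt)
      simp only [Homeomorph.symm_apply_apply] at this
      linarith
    refine ⟨_, hab, fun i => (hh (u i) : X), ?_, ?_, ?_⟩
    · simp only [hu0]
      simp [hφ]
    · simp only [huk]
      simp [hφ]
    · intro i hi
      obtain ⟨z, hz, hzx, hc⟩ := hu i hi
      refine ⟨_, mem_image_of_mem _ hz, hfar _ _ hzx, ?_⟩
      exact rtg_map (fun x => (hh x : X)) (fun v w hvw => ⟨hεε' hvw.1, hfar _ _ hvw.2⟩) hc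

theorem stage1K [ConnectedSpace X] [Nontrivial X] (hX : HE X) {k : ℕ}
    (h : ∃ ρ > 0, ∀ ε > 0, ∃ L : Set X, Cont L ∧ DenseIn L univ ε ∧ ThinK L ε ρ k) :
    ∃ K : Set X, Cont K ∧ K.Nontrivial ∧ ∃ ρ > 0, ∃ γ₀ > 0, ∀ K' ⊆ K, Cont K' →
      DenseIn K' K γ₀ → ∀ ε > 0, ∃ L ⊆ K', Cont L ∧ DenseIn L K' ε ∧ ThinK L ε ρ k := by
  by_contra hcon
  push Not at hcon
  let State := {s : Set X × ℝ // Cont s.1 ∧ s.1.Nontrivial ∧ 0 < s.2}
  let R : ℕ → State → State → Prop := fun n s s' =>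
    s'.1.1 ⊆ s.1.1 ∧ ∃ γ > 0, γ ≤ s.1.2 ∧ DenseIn s'.1.1 s.1.1 γ ∧ s'.1.2 ≤ γ / 2 ∧
      ∃ ε > 0, s'.1.2 ≤ ε / 4 ∧ ∀ L ⊆ s'.1.1, Cont L → DenseIn L s'.1.1 ε →
        ¬ ThinK L ε (1 / ((n : ℝ) + 1)) k
  have step : ∀ n s, ∃ s', R n s s' := by
    rintro n ⟨⟨K, g⟩, hK, hKn, hg⟩
    obtain ⟨a, ha, b, hb, hab⟩ := exists_dist_pos hKn
    have hγ : 0 < min g (dist a b / 3) := lt_min hg (by positivity)
    obtain ⟨K', hK'K, hK', hK'd, ε, hε, hbad⟩ := hcon K hK hKn (1 / ((n : ℝ) + 1))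
      (by positivity) (min g (dist a b / 3)) hγ
    have hK'n : K'.Nontrivial := by
      obtain ⟨a', ha', haa'⟩ := hK'd a ha
      obtain ⟨b', hb', hbb'⟩ := hK'd b hb
      refine ⟨a', ha', b', hb', ?_⟩
      intro hne
      subst hne
      have h1 := haa'.trans_le (min_le_right _ _)
      have h2 := hbb'.trans_le (min_le_right _ _)
      have h3 := dist_triangle_right a b a'
      linarith
    refine ⟨⟨(K', min (min g (dist a b / 3) / 2) (ε / 4)), hK', hK'n,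
      lt_min (by positivity) (by positivity)⟩, hK'K, _, hγ, min_le_left _ _, hK'd,
      min_le_left _ _, ε, hε, min_le_right _ _, ?_⟩
    intro L hL hLc hLd
    exact hbad L hL hLc hLd
  choose f hf using step
  obtain ⟨a, b, hab⟩ := exists_pair_ne X
  have hr : 0 < dist a b := dist_pos.2 hab
  have hcu : Cont (univ : Set X) := ⟨isClosed_univ, isConnected_univ⟩
  let init : State := ⟨(univ, dist a b / 5), hcu, ⟨a, mem_univ _, b, mem_univ _, hab⟩,
    by positivity⟩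
  let seq : ℕ → State := fun n => Nat.rec init (fun n s => f n s) n
  have hseq : ∀ n, R n (seq n) (seq (n + 1)) := fun n => hf n (seq n)
  have hsub : ∀ n, (seq (n + 1)).1.1 ⊆ (seq n).1.1 := fun n => (hseq n).1
  choose γ hγpos hγle hγd hγ2 ε hε hε4 hbad using fun n => (hseq n).2
  have hγγ : ∀ n, γ (n + 1) ≤ γ n / 2 := fun n => (hγle (n + 1)).trans (hγ2 n)
  obtain ⟨hKc, hKd⟩ := nested (K := fun n => (seq n).1.1) (fun n => (seq n).2.1) hsub hγγ hγd
  set Ki := ⋂ n, (seq n).1.1 with hKi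
  have hKn : Ki.Nontrivial := by
    obtain ⟨a', ha', haa'⟩ := hKd 0 a (mem_univ _)
    obtain ⟨b', hb', hbb'⟩ := hKd 0 b (mem_univ _)
    refine ⟨a', ha', b', hb', ?_⟩
    intro hne
    subst hne
    have h1 : γ 0 ≤ dist a b / 5 := hγle 0
    have h3 := dist_triangle_right a b a'
    linarith
  obtain ⟨ρ, hρ, hρL⟩ := transferK hX h hKc hKn
  obtain ⟨n, hn⟩ := exists_nat_one_div_lt hρ
  obtain ⟨L, hLK, hL, hLd, hLt⟩ := hρL (ε n / 2) (by have := hε n; positivity)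
  have hKsub : Ki ⊆ (seq (n + 1)).1.1 := iInter_subset (fun n => (seq n).1.1) (n + 1)
  refine hbad n L (hLK.trans hKsub) hL ?_ (hLt.mono (by have := hε n; linarith) hn.le)
  intro x hx
  obtain ⟨y, hy, hxy⟩ := hKd (n + 1) x hx
  obtain ⟨z, hz, hyz⟩ := hLd y hy
  refine ⟨z, hz, ?_⟩
  have h1 : γ (n + 1) ≤ ε n / 4 := (hγle (n + 1)).trans (hε4 n)
  have h2 := dist_triangle x y z
  linarith

/-- **Engine theorem**, with chains. -/
theorem engineK [ConnectedSpace X] [Nontrivial X] (hX : HE X) (hHI : HI X) {k : ℕ}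
    (h : ∃ ρ > 0, ∀ ε > 0, ∃ L : Set X, Cont L ∧ DenseIn L univ ε ∧ ThinK L ε ρ k) :
    SpanZero X := by
  by_contra hns
  obtain ⟨K, hK, hKn, ρ, hρ, γ₀, hγ₀, hst⟩ := stage1K hX h
  obtain ⟨a, ha, b, hb, hab⟩ := exists_dist_pos hKn
  let State := {s : Set X × ℝ // Cont s.1 ∧ s.1 ⊆ K ∧ 0 < s.2 ∧ DenseIn s.1 K (γ₀ - 2 * s.2)}
  let R : ℕ → State → State → Prop := fun n s s' =>
    s'.1.1 ⊆ s.1.1 ∧ DenseIn s'.1.1 s.1.1 s.1.2 ∧ s'.1.2 ≤ s.1.2 / 2 ∧
      ThinK s'.1.1 (1 / ((n : ℝ) + 1)) ρ k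
  have step : ∀ n s, ∃ s', R n s s' := by
    rintro n ⟨⟨K', g⟩, hK', hK'K, hg, hd⟩
    simp only at hg hd hK' hK'K
    have hpos : 0 < min g (1 / ((n : ℝ) + 1)) := lt_min hg (by positivity)
    obtain ⟨L, hLK, hL, hLd, hLt⟩ := hst K' hK'K hK' (hd.mono (by linarith)) _ hpos
    refine ⟨⟨(L, g / 2), hL, hLK.trans hK'K, by positivity, ?_⟩, hLK,
      hLd.mono (min_le_left _ _), le_rfl, hLt.mono (min_le_right _ _) le_rfl⟩
    have := (hLd.mono (min_le_left g (1 / ((n : ℝ) + 1)))).trans hd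
    refine this.mono ?_
    show g + (γ₀ - 2 * g) ≤ γ₀ - 2 * (g / 2)
    linarith
  choose f hf using step
  have hinit : 0 < min (γ₀ / 3) (dist a b / 5) := lt_min (by positivity) (by positivity)
  let init : State := ⟨(K, min (γ₀ / 3) (dist a b / 5)), hK, subset_rfl, hinit, by
    intro x hx
    refine ⟨x, hx, ?_⟩
    rw [dist_self]
    have := min_le_left (γ₀ / 3) (dist a b / 5)
    show 0 < γ₀ - 2 * min (γ₀ / 3) (dist a b / 5)
    linarith⟩
  let seq : ℕ → State := fun n => Nat.rec init (fun n s => f n s) n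
  have hseq : ∀ n, R n (seq n) (seq (n + 1)) := fun n => hf n (seq n)
  have hsub : ∀ n, (seq (n + 1)).1.1 ⊆ (seq n).1.1 := fun n => (hseq n).1
  obtain ⟨hKc, hKd⟩ := nested (K := fun n => (seq n).1.1) (γ := fun n => (seq n).1.2)
    (fun n => (seq n).2.1) hsub (fun n => (hseq n).2.2.1) (fun n => (hseq n).2.1)
  set Ki := ⋂ n, (seq n).1.1 with hKi
  have hKin : Ki.Nontrivial := by
    obtain ⟨a', ha', haa'⟩ := hKd 0 a ha
    obtain ⟨b', hb', hbb'⟩ := hKd 0 b hb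
    refine ⟨a', ha', b', hb', ?_⟩
    intro hne
    subst hne
    have h1 : (seq 0).1.2 ≤ dist a b / 5 := min_le_right _ _
    have h3 := dist_triangle_right a b a'
    linarith
  obtain ⟨Z, hZ, hZ1, hZ2, hZirr⟩ := exists_irr hX hHI hns hKc hKin
  have hZK : ∀ n, Z ⊆ (seq n).1.1 ×ˢ (seq n).1.1 := by
    intro n p hp
    have h1 : p.1 ∈ Ki := by rw [← hZ1]; exact mem_image_of_mem _ hp
    have h2 : p.2 ∈ Ki := by rw [← hZ2]; exact mem_image_of_mem _ hp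
    exact ⟨iInter_subset (fun n => (seq n).1.1) n h1, iInter_subset (fun n => (seq n).1.1) n h2⟩
  obtain ⟨p, hp, u, hu0, huk, hu⟩ :=
    witness_limitK (K := fun n => (seq (n + 1)).1.1) (fun n => (seq (n + 1)).2.1)
      (fun n => hsub (n + 1)) hZ (ρ := ρ) (ε := fun n => 1 / ((n : ℝ) + 1))
      (fun n => by positivity) tendsto_one_div_add_atTop_nhds_zero_nat
      (fun n => (hseq n).2.2.2 Z hZ (hZK (n + 1)) (hZ1.trans hZ2.symm))
  have hmem : ∀ u, (∀ n, u ∈ (seq (n + 1)).1.1) → u ∈ Ki := by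
    intro u hu
    rw [hKi, mem_iInter]
    intro n
    exact hsub n (hu n)
  rcases k with _ | k
  · have h1 : p.1 = p.2 := hu0.symm.trans huk
    have h2 := hZirr p hp {p.1} ⟨isClosed_singleton, isConnected_singleton⟩ rfl h1.symm
    exact not_nontrivial_singleton (hKin.mono h2)
  · obtain ⟨D, hD, h0, hk, z, hz, hfar⟩ := chain_absorb hHI
      (P := fun D => ∃ z, (∀ n, z ∈ (seq (n + 1)).1.1) ∧ ∀ d ∈ D, ρ ≤ dist z d) hu
    have h2 := hZirr p hp D hD (hu0 ▸ h0) (huk ▸ hk)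
    have h3 := hfar z (h2 (hmem z hz))
    rw [dist_self] at h3
    linarith

/-- The engine theorem with the far points anywhere in the space. -/
theorem engineK' [ConnectedSpace X] [Nontrivial X] (hX : HE X) (hHI : HI X) {k : ℕ}
    (h : ∃ ρ > 0, ∀ ε > 0, ∃ L : Set X, Cont L ∧ DenseIn L univ ε ∧
      ∀ Z : Set (X × X), Cont Z → Z ⊆ L ×ˢ L → Prod.fst '' Z = Prod.snd '' Z →
        ∃ p ∈ Z, KJoined univ ε ρ k p.1 p.2) :
    SpanZero X := by
  obtain ⟨ρ, hρ, h⟩ := h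
  refine engineK hX hHI (k := k) ⟨ρ / 2, by positivity, fun ε hε => ?_⟩
  obtain ⟨L, hL, hLd, hLt⟩ := h (min ε (ρ / 2)) (lt_min hε (by positivity))
  refine ⟨L, hL, hLd.mono (min_le_left _ _), fun Z hZ hZL hZe => ?_⟩
  obtain ⟨p, hp, u, hu0, huk, hu⟩ := hLt Z hZ hZL hZe
  refine ⟨p, hp, u, hu0, huk, fun i hi => ?_⟩
  obtain ⟨z, -, hzx, hc⟩ := hu i hi
  obtain ⟨z', hz', hzz'⟩ := hLd z (mem_univ _)
  have hzz := hzz'.trans_le (min_le_right _ _)
  have hfar : ∀ v, ρ ≤ dist z v → ρ / 2 ≤ dist z' v := by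
    intro v hv
    linarith [dist_triangle z z' v]
  exact ⟨z', hz', hfar _ hzx, rtg_map (fun a => a)
    (fun v w hvw => ⟨hvw.1.trans_le (min_le_left _ _), hfar _ hvw.2⟩) hc⟩

end Pool.Agent.HEC
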