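import Mathlib
import Pool.Agent.HEC.Engine2

set_option autoImplicit false

open Set Filter Topology TopologicalSpace

namespace Pool.Agent.HEC

variable {X : Type*} [MetricSpace X] [CompactSpace X]

/-- In a hereditarily indecomposable continuum `K` every point lies in proper subcontinua which
are almost dense. -/
theorem proper_near (hHI : HI X) {K : Set X} (hK : Cont K) (hKn : K.Nontrivial) {x : X}
    (hx : x ∈ K) {δ : ℝ} (hδ : 0 < δ) :
    ∃ C : Set X, Cont C ∧ C ⊆ K ∧ C ≠ K ∧ x ∈ C ∧ DenseIn C K δ := by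
  have key : ∀ t : Set X, t.Finite → t ⊆ K → ∃ C : Set X, Cont C ∧ C ⊆ K ∧ C ≠ K ∧ x ∈ C ∧
      ∀ a ∈ t, ∃ c ∈ C, dist a c < δ / 2 := by
    intro t ht
    induction t, ht using Set.Finite.induction_on with
    | empty =>
      intro _
      refine ⟨{x}, ⟨isClosed_singleton, isConnected_singleton⟩, singleton_subset_iff.2 hx, ?_, rfl,
        fun a ha => absurd ha (notMem_empty a)⟩
      intro h
      rw [← h] at hKn
      exact not_nontrivial_singleton hKn
    | @insert a t _ _ ih =>
      intro htK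
      obtain ⟨C, hC, hCK, hCne, hxC, hCt⟩ := ih ((subset_insert a t).trans htK)
      have haK : a ∈ K := htK (mem_insert a t)
      by_cases hax : a = x
      · refine ⟨C, hC, hCK, hCne, hxC, fun b hb => ?_⟩
        rcases hb with rfl | hb
        · exact ⟨b, hax ▸ hxC, by rw [dist_self]; positivity⟩
        · exact hCt b hb
      · have hd : 0 < dist x a := dist_pos.2 (fun h => hax h.symm)
        set r := min (δ / 4) (dist x a / 2) with hr
        have hr0 : 0 < r := lt_min (by positivity) (by positivity)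
        have hr1 : r < dist x a := (min_le_right _ _).trans_lt (by linarith)
        have hr2 : r < δ / 2 := (min_le_left _ _).trans_lt (by linarith)
        set F : Set X := {y | r ≤ dist y a} with hF
        have hFc : IsClosed F := isClosed_le continuous_const (by fun_prop)
        have hxF : x ∈ F := hr1.le
        have haF : a ∉ F := by
          intro h
          have : r ≤ dist a a := h
          rw [dist_self] at this
          linarith
        have hKF : ¬ K ⊆ F := fun h => haF (h haK)
        obtain ⟨y, hyC, hycl⟩ := bump hK hFc hx hxF hKF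
        have hC2 : Cont (connectedComponentIn (K ∩ F) x) := cont_comp (hK.1.inter hFc) ⟨hx, hxF⟩
        have hC2K : connectedComponentIn (K ∩ F) x ⊆ K :=
          (connectedComponentIn_subset _ _).trans inter_subset_left
        have hC2F : connectedComponentIn (K ∩ F) x ⊆ F :=
          (connectedComponentIn_subset _ _).trans inter_subset_right
        have hxC2 := mem_connectedComponentIn (F := K ∩ F) (x := x) ⟨hx, hxF⟩
        have hy : dist a y < δ / 2 := by
          have h1 : closure (K \ F) ⊆ {z | dist z a ≤ r} := by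
            apply closure_minimal _ (isClosed_le (by fun_prop) continuous_const)
            rintro z ⟨_, hz⟩
            exact (not_le.1 (show ¬ r ≤ dist z a from hz)).le
          have h2 : dist y a ≤ r := h1 hycl
          rw [dist_comm]; linarith
        have hC2ne : connectedComponentIn (K ∩ F) x ≠ K := by
          intro h
          exact haF (hC2F (h.symm.subset haK))
        rcases hHI C _ hC hC2 ⟨x, hxC, hxC2⟩ with h | h
        · refine ⟨_, hC2, hC2K, hC2ne, hxC2, fun b hb => ?_⟩
          rcases hb with rfl | hb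
          · exact ⟨y, hyC, hy⟩
          · obtain ⟨c, hc, hbc⟩ := hCt b hb
            exact ⟨c, h hc, hbc⟩
        · refine ⟨C, hC, hCK, hCne, hxC, fun b hb => ?_⟩
          rcases hb with rfl | hb
          · exact ⟨y, h hyC, hy⟩
          · exact hCt b hb
  obtain ⟨t, htK, htf, htc⟩ := hK.1.isCompact.finite_cover_balls (e := δ / 2) (by positivity)
  obtain ⟨C, hC, hCK, hCne, hxC, hCt⟩ := key t htf htK
  refine ⟨C, hC, hCK, hCne, hxC, fun k hk => ?_⟩
  have := htc hk
  rw [mem_iUnion₂] at this
  obtain ⟨a, ha, hka⟩ := this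
  obtain ⟨c, hc, hac⟩ := hCt a ha
  refine ⟨c, hc, ?_⟩
  rw [Metric.mem_ball] at hka
  linarith [dist_triangle k a c]

/-- Arbitrarily many pairwise disjoint, almost dense subcontinua. -/
theorem disjoint_near (hX : HE X) (hHI : HI X) (hns : ¬ SpanZero X) (N : ℕ) :
    ∀ K : Set X, Cont K → K.Nontrivial → ∀ δ : ℝ, 0 < δ → ∃ M : ℕ → Set X,
      (∀ i ≤ N, Cont (M i) ∧ M i ⊆ K ∧ DenseIn (M i) K δ) ∧
      ∀ i ≤ N, ∀ j ≤ N, i ≠ j → Disjoint (M i) (M j) := by
  induction N with
  | zero =>
    intro K hK _ δ hδ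
    refine ⟨fun _ => K, fun i _ => ⟨hK, subset_rfl, fun x hx => ⟨x, hx, ?_⟩⟩, ?_⟩
    · rw [dist_self]; exact hδ
    · intro i hi j hj hij
      omega
  | succ N ih =>
    intro K hK hKn δ hδ
    obtain ⟨Z, hZ, hZ1, hZ2, hirr⟩ := exists_irr hX hHI hns hK hKn
    obtain ⟨p, hp⟩ := hZ.2.nonempty
    have hp1 : p.1 ∈ K := by rw [← hZ1]; exact mem_image_of_mem _ hp
    have hp2 : p.2 ∈ K := by rw [← hZ2]; exact mem_image_of_mem _ hp
    obtain ⟨a, ha, b, hb, hab⟩ := exists_dist_pos hKn
    have hδ' : 0 < min (δ / 2) (dist a b / 3) := lt_min (by positivity) (by positivity)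
    obtain ⟨C, hC, hCK, hCne, hpC, hCd⟩ := proper_near hHI hK hKn hp1 hδ'
    obtain ⟨C', hC', hCK', hCne', hpC', hCd'⟩ := proper_near hHI hK hKn hp2 hδ'
    have hdisj : Disjoint C C' := by
      rw [Set.disjoint_iff_inter_eq_empty]
      by_contra hne
      rw [← Ne, ← nonempty_iff_ne_empty] at hne
      rcases hHI C C' hC hC' hne with h | h
      · exact hCne' (hCK'.antisymm (hirr p hp C' hC' (h hpC) hpC'))
      · exact hCne (hCK.antisymm (hirr p hp C hC hpC (h hpC')))
    have hCn' : C'.Nontrivial := by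
      obtain ⟨a', ha', haa'⟩ := hCd' a ha
      obtain ⟨b', hb', hbb'⟩ := hCd' b hb
      refine ⟨a', ha', b', hb', ?_⟩
      intro hne
      subst hne
      have h1 := haa'.trans_le (min_le_right _ _)
      have h2 := hbb'.trans_le (min_le_right _ _)
      have h3 := dist_triangle_right a b a'
      linarith
    obtain ⟨M, hM, hMd⟩ := ih C' hC' hCn' (δ / 2) (by positivity)
    refine ⟨fun i => Nat.casesOn i C M, ?_, ?_⟩
    · rintro (_ | i) hi
      · exact ⟨hC, hCK, hCd.mono ((min_le_left _ _).trans (by linarith))⟩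
      · obtain ⟨h1, h2, h3⟩ := hM i (by omega)
        exact ⟨h1, h2.trans hCK', (h3.trans (hCd'.mono (min_le_left _ _))).mono (by linarith)⟩
    · rintro (_ | i) hi (_ | j) hj hij
      · exact absurd rfl hij
      · exact hdisj.mono_right (hM j (by omega)).2.1
      · exact (hdisj.mono_right (hM i (by omega)).2.1).symm
      · exact hMd i (by omega) j (by omega) (by omega)

/-- Subcontinua which are almost dense in a hereditarily indecomposable continuum contain
approximations of every given subcontinuum. -/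
theorem near_sub (hHI : HI X) {A : Set X} (hA : Cont A) {δ r : ℝ} (hδ : 0 < δ) (hr : 0 < r) :
    ∃ ε > 0, ∀ M : Set X, Cont M → DenseIn M univ ε → ∃ M' ⊆ M, Cont M' ∧
      (∀ x ∈ M', ∃ a ∈ A, dist x a ≤ r) ∧ DenseIn M' A δ := by
  by_cases hAu : A = univ
  · subst hAu
    exact ⟨δ, hδ, fun M hM hMd => ⟨M, subset_rfl, hM,
      fun x _ => ⟨x, mem_univ _, by rw [dist_self]; exact hr.le⟩, hMd⟩⟩
  obtain ⟨z, hz⟩ := (ne_univ_iff_exists_notMem A).1 hAu
  have hzpos : 0 < Metric.infDist z A :=
    (hA.1.notMem_iff_infDist_pos hA.2.nonempty).1 hz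
  set r' := min r (Metric.infDist z A / 2) with hr'
  have hr'0 : 0 < r' := lt_min hr (by positivity)
  set F : Set X := {y | Metric.infDist y A ≤ r'} with hF
  have hFc : IsClosed F :=
    isClosed_le (Metric.continuous_infDist_pt A) continuous_const
  obtain ⟨a, ha⟩ := hA.2.nonempty
  by_contra hcon
  push Not at hcon
  have hεn : ∀ n : ℕ, 0 < min r' (1 / ((n : ℝ) + 1)) := fun n => lt_min hr'0 (by positivity)
  have hex : ∀ n : ℕ, ∃ C : Set X, ∃ m y b : X, Cont C ∧ m ∈ C ∧ y ∈ C ∧ b ∈ A ∧
      dist a m < 1 / ((n : ℝ) + 1) ∧ r' ≤ Metric.infDist y A ∧ ∀ d ∈ C, δ ≤ dist b d := by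
    intro n
    obtain ⟨M, hM, hMd, hbad⟩ := hcon _ (hεn n)
    obtain ⟨m, hm, ham⟩ := hMd a (mem_univ _)
    have hmF : m ∈ F := by
      show Metric.infDist m A ≤ r'
      refine (Metric.infDist_le_dist_of_mem ha).trans ?_
      rw [dist_comm]
      exact (ham.trans_le (min_le_left _ _)).le
    have hMF : ¬ M ⊆ F := by
      intro h
      obtain ⟨z', hz', hzz'⟩ := hMd z (mem_univ _)
      have h1 : Metric.infDist z' A ≤ r' := h hz'
      have h2 : Metric.infDist z A ≤ Metric.infDist z' A + dist z z' := Metric.infDist_le_infDist_add_dist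
      have h3 := hzz'.trans_le (min_le_left _ _)
      have h4 : r' ≤ Metric.infDist z A / 2 := min_le_right _ _
      linarith
    obtain ⟨y, hyC, hycl⟩ := bump hM hFc hm hmF hMF
    have hC : Cont (connectedComponentIn (M ∩ F) m) := cont_comp (hM.1.inter hFc) ⟨hm, hmF⟩
    have hCM : connectedComponentIn (M ∩ F) m ⊆ M :=
      (connectedComponentIn_subset _ _).trans inter_subset_left
    have hCF : connectedComponentIn (M ∩ F) m ⊆ F :=
      (connectedComponentIn_subset _ _).trans inter_subset_right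
    have hnd := hbad _ hCM hC (by
      intro x hx
      have h1 : Metric.infDist x A ≤ r' := hCF hx
      obtain ⟨c, hc, hxc⟩ := hA.1.isCompact.exists_infDist_eq_dist hA.2.nonempty x
      refine ⟨c, hc, ?_⟩
      rw [← hxc]
      exact h1.trans (min_le_left _ _))
    unfold DenseIn at hnd
    push Not at hnd
    obtain ⟨b, hb, hbd⟩ := hnd
    refine ⟨_, m, y, b, hC, mem_connectedComponentIn ⟨hm, hmF⟩, hyC, hb,
      ham.trans_le (min_le_right _ _), ?_, hbd⟩
    have h1 : closure (M \ F) ⊆ {w | r' ≤ Metric.infDist w A} := by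
      apply closure_minimal _ (isClosed_le continuous_const (Metric.continuous_infDist_pt A))
      rintro w ⟨_, hw⟩
      exact (not_le.1 (show ¬ Metric.infDist w A ≤ r' from hw)).le
    exact h1 hycl
  choose C m y b hC hm hy hb ham hyr hbC using hex
  let D : ℕ → NonemptyCompacts X := fun n => ⟨⟨C n, (hC n).1.isCompact⟩, (hC n).2.nonempty⟩
  let s : ℕ → NonemptyCompacts X × (X × X) := fun n => (D n, (y n, b n))
  obtain ⟨q, φ, hφ, hq⟩ := CompactSpace.tendsto_subseq s
  obtain ⟨D₀, y₀, b₀⟩ := q
  have hqD : Tendsto (fun n => D (φ n)) atTop (𝓝 D₀) := (continuous_fst.tendsto _).comp hq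
  have hqy : Tendsto (fun n => y (φ n)) atTop (𝓝 y₀) :=
    ((continuous_fst.comp continuous_snd).tendsto _).comp hq
  have hqb : Tendsto (fun n => b (φ n)) atTop (𝓝 b₀) :=
    ((continuous_snd.comp continuous_snd).tendsto _).comp hq
  have hqm : Tendsto (fun n => m (φ n)) atTop (𝓝 a) := by
    rw [tendsto_iff_dist_tendsto_zero]
    have h1 : Tendsto (fun n : ℕ => 1 / (((φ n : ℕ) : ℝ) + 1)) atTop (𝓝 0) :=
      tendsto_one_div_add_atTop_nhds_zero_nat.comp hφ.tendsto_atTop
    refine squeeze_zero (fun n => dist_nonneg) (fun n => ?_) h1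
    rw [dist_comm]
    exact (ham (φ n)).le
  have haD : a ∈ (D₀ : Set X) := nc_mem_limit hqD hqm (fun n => hm (φ n))
  have hyD : y₀ ∈ (D₀ : Set X) := nc_mem_limit hqD hqy (fun n => hy (φ n))
  have hDc : Cont (D₀ : Set X) :=
    ⟨D₀.isCompact.isClosed, nc_connected_limit hqD (fun n => (hC (φ n)).2)⟩
  have hbA : b₀ ∈ A := hA.1.mem_of_tendsto hqb (Eventually.of_forall (fun n => hb (φ n)))
  have hyr₀ : r' ≤ Metric.infDist y₀ A :=
    ge_of_tendsto' (((Metric.continuous_infDist_pt A).tendsto y₀).comp hqy) (fun n => hyr (φ n))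
  have hfar := nc_far_limit hqD hqb (fun n => hbC (φ n))
  rcases hHI A _ hA hDc ⟨a, ha, haD⟩ with h | h
  · have := hfar b₀ (h hbA)
    rw [dist_self] at this
    linarith
  · have h1 := Metric.infDist_zero_of_mem (h hyD)
    linarith

end Pool.Agent.HEC
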