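import Mathlib
import Pool.Agent.HEC.Defs

set_option autoImplicit false

open Set

namespace Pool.Agent.HEC

variable {V : Type*} {G : SimpleGraph V}

theorem not_mem_branch (v w : V) : v ∉ branch G v w := by
  rintro ⟨q, hq⟩
  exact hq q.end_mem_support

theorem mem_branch_self {v w : V} (h : v ≠ w) : w ∈ branch G v w := ⟨.nil, by simpa using h⟩

theorem branch_adj {v w u u' : V} (h : u ∈ branch G v w) (ha : G.Adj u u') (hu : u' ≠ v) :
    u' ∈ branch G v w := by
  obtain ⟨q, hq⟩ := h
  refine ⟨q.concat ha, ?_⟩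
  rw [SimpleGraph.Walk.support_concat]
  simp [hq, hu.symm]

theorem support_path_subset (hG : G.IsAcyclic) {a b : V} (p : G.Walk a b) (hp : p.IsPath)
    (q : G.Walk a b) : p.support ⊆ q.support := by
  classical
  have := (hG.subsingleton_path a b).elim ⟨p, hp⟩ ⟨q.bypass, q.bypass_isPath⟩
  have h2 : p = q.bypass := congrArg Subtype.val this
  rw [h2]
  exact q.support_bypass_subset_support

theorem branch_mono (hG : G.IsAcyclic) {v w v' : V} (h1 : G.Adj v w) (h2 : G.Adj v v')
    (h3 : v' ≠ w) : branch G v w ⊆ branch G v' v := by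
  classical
  rintro u ⟨q, hq⟩
  refine ⟨.cons h1 q, ?_⟩
  rw [SimpleGraph.Walk.support_cons, List.mem_cons, not_or]
  refine ⟨h2.ne', fun hmem => ?_⟩
  have hp : (SimpleGraph.Walk.cons h1.symm (.cons h2 .nil) : G.Walk w v').IsPath := by
    simp [SimpleGraph.Walk.cons_isPath_iff, h1.ne', h3.symm, h2.ne]
  have := support_path_subset hG _ hp (q.takeUntil v' hmem)
  have hv : v ∈ (q.takeUntil v' hmem).support := this (by simp)
  exact hq (q.support_takeUntil_subset_support hmem hv)

/-- `p 0, …, p n` is a path of the graph `G`. -/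
def IsSpine (G : SimpleGraph V) (n : ℕ) (p : ℕ → V) : Prop :=
  (∀ i < n, G.Adj (p i) (p (i + 1))) ∧ ∀ i ≤ n, ∀ j ≤ n, p i = p j → i = j

theorem IsSpine.walk {n : ℕ} {p : ℕ → V} (h : IsSpine G n p) : ∀ m i j, j = i + m → j ≤ n →
    ∃ q : G.Walk (p i) (p j), q.IsPath ∧ ∀ v, v ∈ q.support ↔ ∃ k, i ≤ k ∧ k ≤ j ∧ v = p k := by
  intro m
  induction m with
  | zero =>
    intro i j hij hj
    have : j = i := by omega
    subst this
    refine ⟨.nil, .nil, fun v => ?_⟩
    simp only [SimpleGraph.Walk.support_nil, List.mem_singleton]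
    constructor
    · intro hv; exact ⟨j, le_rfl, le_rfl, hv⟩
    · rintro ⟨k, hk1, hk2, hv⟩
      have : k = j := le_antisymm hk2 hk1
      rw [hv, this]
  | succ m ih =>
    intro i j hij hj
    obtain ⟨q, hq, hqs⟩ := ih (i + 1) j (by omega) hj
    refine ⟨.cons (h.1 i (by omega)) q, ?_, ?_⟩
    · rw [SimpleGraph.Walk.cons_isPath_iff]
      refine ⟨hq, fun hmem => ?_⟩
      obtain ⟨k, hk1, hk2, hk3⟩ := (hqs _).1 hmem
      have := h.2 i (by omega) k (by omega) hk3
      omega
    · intro v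
      rw [SimpleGraph.Walk.support_cons, List.mem_cons, hqs]
      constructor
      · rintro (hv | ⟨k, hk1, hk2, hv⟩)
        · exact ⟨i, le_rfl, by omega, hv⟩
        · exact ⟨k, by omega, hk2, hv⟩
      · rintro ⟨k, hk1, hk2, hv⟩
        by_cases hk : k = i
        · left; rw [hv, hk]
        · right; exact ⟨k, by omega, hk2, hv⟩

theorem IsSpine.not_mem (hG : G.IsAcyclic) {n : ℕ} {p : ℕ → V} (h : IsSpine G n p) {w : V}
    (hw : G.Adj (p 0) w) (h1 : 1 ≤ n → w ≠ p 1) : ∀ k ≤ n, w ≠ p k := by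
  intro k hk hwk
  subst hwk
  have hk0 : k ≠ 0 := by rintro rfl; exact G.loopless.irrefl _ hw
  have hk1 : k ≠ 1 := by rintro rfl; exact h1 hk rfl
  obtain ⟨q, hq, hqs⟩ := h.walk k 0 k (by omega) hk
  have := support_path_subset hG q hq (.cons hw .nil)
  have h2 : p 1 ∈ q.support := (hqs _).2 ⟨1, by omega, by omega, rfl⟩
  have h3 := this h2
  simp only [SimpleGraph.Walk.support_cons, SimpleGraph.Walk.support_nil, List.mem_cons,
    List.not_mem_nil, or_false] at h3
  rcases h3 with h3 | h3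
  · have := h.2 1 (by omega) 0 (by omega) h3; omega
  · have := h.2 1 (by omega) k hk h3; omega

theorem IsSpine.extend (hG : G.IsAcyclic) {n : ℕ} {p : ℕ → V} (h : IsSpine G n p) {w : V}
    (hw : G.Adj (p 0) w) (h1 : 1 ≤ n → w ≠ p 1) :
    IsSpine G (n + 1) (fun i => Nat.casesOn i w p) := by
  have hnm := h.not_mem hG hw h1
  refine ⟨?_, ?_⟩
  · rintro (_ | i) hi
    · exact hw.symm
    · exact h.1 i (by omega)
  · rintro (_ | i) hi (_ | j) hj hij
    · rfl
    · exact absurd hij (hnm j (by omega))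
    · exact absurd hij.symm (hnm i (by omega))
    · have := h.2 i (by omega) j (by omega) hij
      omega

theorem IsSpine.reverse {n : ℕ} {p : ℕ → V} (h : IsSpine G n p) :
    IsSpine G n (fun i => p (n - i)) := by
  refine ⟨?_, ?_⟩
  · intro i hi
    have := (h.1 (n - (i + 1)) (by omega)).symm
    rwa [show n - (i + 1) + 1 = n - i by omega] at this
  · intro i hi j hj hij
    have := h.2 (n - i) (by omega) (n - j) (by omega) hij
    omega

theorem IsSpine.lt_card [Finite V] {n : ℕ} {p : ℕ → V} (h : IsSpine G n p) : n < Nat.card V := by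
  have : Function.Injective (fun i : Fin (n + 1) => p i) := by
    intro i j hij
    exact Fin.ext (h.2 i (by omega) j (by omega) hij)
  have := Nat.card_le_card_of_injective _ this
  simp at this
  omega

theorem exists_spine [Finite V] [Nonempty V] (hG : G.IsAcyclic) (Lg : V → V → Prop)
    (hadj : ∀ v w, Lg v w → G.Adj v w)
    (hmono : ∀ v w v', Lg v w → G.Adj v v' → v' ≠ w → Lg v' v)
    (h3 : ∀ v a b c, Lg v a → Lg v b → Lg v c → a = b ∨ b = c ∨ a = c) :
    ∃ n p, IsSpine G n p ∧ ∀ i ≤ n, ∀ w, Lg (p i) w → ∃ k ≤ n, w = p k := by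
  classical
  let Big : ℕ → (ℕ → V) → Prop := fun n p => ∀ i < n, Lg (p i) (p (i + 1)) ∧ Lg (p (i + 1)) (p i)
  let S : Set ℕ := {n | ∃ p, IsSpine G n p ∧ Big n p}
  have hS0 : (0 : ℕ) ∈ S := by
    obtain ⟨v⟩ := ‹Nonempty V›
    exact ⟨fun _ => v, ⟨fun i hi => absurd hi (Nat.not_lt_zero i), fun i hi j hj _ => by omega⟩,
      fun i hi => absurd hi (Nat.not_lt_zero i)⟩
  have hSb : BddAbove S := ⟨Nat.card V, fun n ⟨p, hp, _⟩ => hp.lt_card.le⟩
  have hmax : ∀ m ∈ S, m ≤ sSup S := fun m hm => le_csSup hSb hm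
  obtain ⟨p, hp, hpB⟩ := Nat.sSup_mem ⟨0, hS0⟩ hSb
  set n := sSup S with hn
  -- the extension argument at the front
  have front : ∀ p, IsSpine G n p → Big n p → 1 ≤ n → ∀ w, Lg (p 0) w → w = p 1 := by
    intro p hp hpB hn1 w hw
    by_contra hne
    have hext := hp.extend hG (hadj _ _ hw) (fun _ => hne)
    have h01 := (hpB 0 (by omega)).1
    have hwp : Lg w (p 0) := hmono _ _ _ h01 (hadj _ _ hw) hne
    have hB : Big (n + 1) (fun i => Nat.casesOn i w p) := by
      rintro (_ | i) hi
      · exact ⟨hwp, hw⟩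
      · exact hpB i (by omega)
    have := hmax (n + 1) ⟨_, hext, hB⟩
    omega
  rcases Nat.eq_zero_or_pos n with h0 | hpos
  · -- no bi-large edge
    have hnb : ∀ v w, Lg v w → ¬ Lg w v := by
      intro v w h1 h2
      have hsp : IsSpine G 0 (fun _ => v) :=
        ⟨fun i hi => absurd hi (Nat.not_lt_zero i), fun i hi j hj _ => by omega⟩
      have hext := hsp.extend hG (w := w) (hadj _ _ h1) (fun h => absurd h (by omega))
      have hB : Big (0 + 1) (fun i => Nat.casesOn i w (fun _ => v)) := by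
        rintro (_ | i) hi
        · exact ⟨h2, h1⟩
        · omega
      have := hmax (0 + 1) ⟨_, hext, hB⟩
      omega
    have hex : ∃ v, ∀ w, ¬ Lg v w := by
      by_contra hcon
      push Not at hcon
      choose f hf using hcon
      obtain ⟨v₀⟩ := ‹Nonempty V›
      have : Nonempty {q : V × V // Lg q.1 q.2} := ⟨⟨(v₀, f v₀), hf v₀⟩⟩
      obtain ⟨⟨⟨v, w⟩, hvw⟩, hmin⟩ := Finite.exists_min
        (fun q : {q : V × V // Lg q.1 q.2} => (branch G q.1.1 q.1.2).ncard)
      simp only at hvw hmin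
      have h1 := hmin ⟨(w, f w), hf w⟩
      simp only at h1
      have hne : v ≠ f w := by
        intro h
        exact hnb v w hvw (by rw [h] at *; exact hf w)
      have hsub := branch_mono hG (hadj _ _ (hf w)) (hadj _ _ hvw).symm hne
      have hss : branch G w (f w) ⊂ branch G v w := by
        refine ⟨hsub, fun h => ?_⟩
        exact not_mem_branch w (f w) (h (mem_branch_self (hadj _ _ hvw).ne))
      have := Set.ncard_lt_ncard hss (Set.toFinite _)
      omega
    obtain ⟨v, hv⟩ := hex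
    exact ⟨0, fun _ => v, ⟨fun i hi => absurd hi (Nat.not_lt_zero i), fun i hi j hj _ => by omega⟩,
      fun i _ w hw => absurd hw (hv w)⟩
  · refine ⟨n, p, hp, ?_⟩
    intro i hi w hw
    by_cases hi0 : i = 0
    · subst hi0
      exact ⟨1, hpos, front p hp hpB hpos w hw⟩
    by_cases hin : i = n
    · rw [hin] at hw
      have hB' : Big n (fun k => p (n - k)) := by
        intro k hk
        have := hpB (n - (k + 1)) (by omega)
        rw [show n - (k + 1) + 1 = n - k by omega] at this
        exact ⟨this.2, this.1⟩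
      have := front _ hp.reverse hB' hpos w (by simpa using hw)
      exact ⟨n - 1, by omega, this⟩
    · have h1 := (hpB (i - 1) (by omega)).2
      have h2 := (hpB i (by omega)).1
      rw [show i - 1 + 1 = i by omega] at h1
      rcases h3 _ _ _ _ h1 h2 hw with h | h | h
      · have := hp.2 _ (by omega) _ (by omega) h
        omega
      · exact ⟨i + 1, by omega, h.symm⟩
      · exact ⟨i - 1, by omega, h.symm⟩

/-- `u` hangs at the vertex `p i` of the spine: some walk from `u` to `p i` meets the spine only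
at `p i`. -/
def Hang (G : SimpleGraph V) (n : ℕ) (p : ℕ → V) (i : ℕ) (u : V) : Prop :=
  i ≤ n ∧ ∃ q : G.Walk u (p i), ∀ k ≤ n, p k ∈ q.support → k = i

theorem exists_hang (hG : G.Connected) {n : ℕ} {p : ℕ → V} (h : IsSpine G n p) (u : V) :
    ∃ i, Hang G n p i u := by
  classical
  have hex : ∃ m : ℕ, ∃ i ≤ n, ∃ q : G.Walk u (p i), q.length = m := by
    obtain ⟨q⟩ := hG.preconnected u (p 0)
    exact ⟨_, 0, Nat.zero_le _, q, rfl⟩
  obtain ⟨i, hi, q, hq⟩ := Nat.find_spec hex
  refine ⟨i, hi, q, fun k hk hkq => ?_⟩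
  by_contra hne
  have hlt : (q.takeUntil (p k) hkq).length < q.length := by
    apply SimpleGraph.Walk.length_takeUntil_lt_length
    intro h1
    exact hne (h.2 _ hk _ hi h1)
  rw [hq] at hlt
  exact Nat.find_min hex hlt ⟨k, hk, _, rfl⟩

theorem hang_adj (hG : G.IsAcyclic) {n : ℕ} {p : ℕ → V} (h : IsSpine G n p) {u u' : V} {i j : ℕ}
    (hu : Hang G n p i u) (hu' : Hang G n p j u') (ha : u = u' ∨ G.Adj u u') : i ≤ j + 1 := by
  obtain ⟨hi, q, hq⟩ := hu
  obtain ⟨hj, q', hq'⟩ := hu'
  by_contra hcon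
  push Not at hcon
  -- a walk from `p j` to `p i`
  have hw : ∃ r : G.Walk (p j) (p i), ∀ v ∈ r.support, v ∈ q.support ∨ v ∈ q'.support := by
    rcases ha with ha | ha
    · subst ha
      refine ⟨q'.reverse.append q, fun v hv => ?_⟩
      rw [SimpleGraph.Walk.mem_support_append_iff, SimpleGraph.Walk.support_reverse,
        List.mem_reverse] at hv
      exact hv.symm
    · refine ⟨q'.reverse.append (.cons ha.symm q), fun v hv => ?_⟩
      rw [SimpleGraph.Walk.mem_support_append_iff, SimpleGraph.Walk.support_reverse,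
        List.mem_reverse, SimpleGraph.Walk.support_cons, List.mem_cons] at hv
      rcases hv with hv | hv | hv
      · exact Or.inr hv
      · rw [hv]; exact Or.inr q'.start_mem_support
      · exact Or.inl hv
  obtain ⟨r, hr⟩ := hw
  obtain ⟨s, hs, hss⟩ := h.walk (i - j) j i (by omega) hi
  have h1 : p (j + 1) ∈ s.support := (hss _).2 ⟨j + 1, by omega, by omega, rfl⟩
  have h2 := support_path_subset hG s hs r h1
  rcases hr _ h2 with h3 | h3
  · have := hq _ (by omega) h3; omega
  · have := hq' _ (by omega) h3; omega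

theorem hang_branch {n : ℕ} {p : ℕ → V} {u : V} {i : ℕ}
    (hu : Hang G n p i u) (hne : u ≠ p i) :
    ∃ w, G.Adj (p i) w ∧ (∀ k ≤ n, w ≠ p k) ∧ u ∈ branch G (p i) w := by
  classical
  obtain ⟨hi, q, hq⟩ := hu
  have hq2 : ∃ q : G.Walk (p i) u, q.IsPath ∧ ∀ k ≤ n, p k ∈ q.support → k = i := by
    refine ⟨q.reverse.bypass, q.reverse.bypass_isPath, fun k hk hmem => hq k hk ?_⟩
    have := q.reverse.support_bypass_subset_support hmem
    rwa [SimpleGraph.Walk.support_reverse, List.mem_reverse] at this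
  obtain ⟨q, hqp, hq⟩ := hq2
  cases q with
  | nil => exact absurd rfl hne
  | @cons _ w _ ha q' =>
    rw [SimpleGraph.Walk.cons_isPath_iff] at hqp
    refine ⟨w, ha, ?_, q', hqp.2⟩
    intro k hk hwk
    have := hq k hk (by
      rw [SimpleGraph.Walk.support_cons, ← hwk]
      exact List.mem_cons_of_mem _ q'.start_mem_support)
    rw [this] at hwk
    exact ha.ne hwk.symm

end Pool.Agent.HEC
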