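import Mathlib
import Pool.Agent.HEC.Engine2
import Pool.Agent.HEC.Tree

set_option autoImplicit false

open Set Filter Topology TopologicalSpace

namespace Pool.Agent.HEC

theorem chain_pair {X : Type*} [TopologicalSpace X] {n : ℕ} {Y : ℕ → Set X}
    (hY : ∀ i, IsClosed (Y i)) {Z : Set (X × X)} (hZ : IsConnected Z)
    (he : Prod.fst '' Z = Prod.snd '' Z)
    (hcov : ∀ x ∈ Prod.fst '' Z, ∃ i ≤ n, x ∈ Y i)
    (hd : ∀ i j x, x ∈ Y i → x ∈ Y j → i ≤ j + 1) :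
    ∃ p ∈ Z, ∃ i ≤ n, ∃ j ≤ n, p.1 ∈ Y i ∧ p.2 ∈ Y j ∧ i ≤ j + 1 ∧ j ≤ i + 1 := by
  by_contra hcon
  push Not at hcon
  let S : Set (ℕ × ℕ) := {q | q.1 ≤ n ∧ q.2 ≤ n ∧ q.1 + 1 < q.2}
  let S' : Set (ℕ × ℕ) := {q | q.1 ≤ n ∧ q.2 ≤ n ∧ q.2 + 1 < q.1}
  have hSf : S.Finite := ((Set.finite_Iic n).prod (Set.finite_Iic n)).subset
    (fun q hq => ⟨hq.1, hq.2.1⟩)
  have hSf' : S'.Finite := ((Set.finite_Iic n).prod (Set.finite_Iic n)).subset
    (fun q hq => ⟨hq.1, hq.2.1⟩)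
  let A : Set (X × X) := ⋃ q ∈ S, Y q.1 ×ˢ Y q.2
  let B : Set (X × X) := ⋃ q ∈ S', Y q.1 ×ˢ Y q.2
  have hA : IsClosed A := hSf.isClosed_biUnion (fun q _ => (hY q.1).prod (hY q.2))
  have hB : IsClosed B := hSf'.isClosed_biUnion (fun q _ => (hY q.1).prod (hY q.2))
  have hAB : Z ⊆ A ∪ B := by
    intro p hp
    obtain ⟨i, hi, hpi⟩ := hcov p.1 (mem_image_of_mem _ hp)
    obtain ⟨j, hj, hpj⟩ := hcov p.2 (by rw [he]; exact mem_image_of_mem _ hp)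
    by_cases h1 : i + 1 < j
    · left
      exact mem_biUnion (show (i, j) ∈ S from ⟨hi, hj, h1⟩) ⟨hpi, hpj⟩
    · right
      have := hcon p hp i hi j hj hpi hpj
      have h2 : j + 1 < i := by
        by_contra h3
        have := this (by omega)
        omega
      exact mem_biUnion (show (i, j) ∈ S' from ⟨hi, hj, h2⟩) ⟨hpi, hpj⟩
  have hAe : ∀ p, p ∈ A → ∃ i j, i ≤ n ∧ j ≤ n ∧ i + 1 < j ∧ p.1 ∈ Y i ∧ p.2 ∈ Y j := by
    intro p hp
    simp only [A, mem_iUnion] at hp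
    obtain ⟨⟨i, j⟩, ⟨h1, h2, h3⟩, h4, h5⟩ := hp
    exact ⟨i, j, h1, h2, h3, h4, h5⟩
  have hBe : ∀ p, p ∈ B → ∃ i j, i ≤ n ∧ j ≤ n ∧ j + 1 < i ∧ p.1 ∈ Y i ∧ p.2 ∈ Y j := by
    intro p hp
    simp only [B, mem_iUnion] at hp
    obtain ⟨⟨i, j⟩, ⟨h1, h2, h3⟩, h4, h5⟩ := hp
    exact ⟨i, j, h1, h2, h3, h4, h5⟩
  have hor : Z ⊆ A ∨ Z ⊆ B := by
    by_contra hno
    push Not at hno
    obtain ⟨h1, h2⟩ := hno
    obtain ⟨p, hp, hpA⟩ := not_subset.1 h1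
    obtain ⟨q, hq, hqB⟩ := not_subset.1 h2
    obtain ⟨r, hr, hrA, hrB⟩ := isPreconnected_closed_iff.1 hZ.isPreconnected A B hA hB hAB
      ⟨q, hq, (hAB hq).resolve_right hqB⟩ ⟨p, hp, (hAB hp).resolve_left hpA⟩
    obtain ⟨i, j, hi, hj, hij, h3, h4⟩ := hAe r hrA
    obtain ⟨i', j', hi', hj', hij', h3', h4'⟩ := hBe r hrB
    have := hd i' i _ h3' h3
    have := hd j j' _ h4 h4'
    omega
  have hneZ : ∃ x, x ∈ Prod.fst '' Z := by
    obtain ⟨p, hp⟩ := hZ.nonempty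
    exact ⟨_, mem_image_of_mem _ hp⟩
  rcases hor with hor | hor
  · have key : ∀ k, ∃ i ≤ n, k ≤ i ∧ ∃ x ∈ Prod.fst '' Z, x ∈ Y i := by
      intro k
      induction k with
      | zero =>
        obtain ⟨x, hx⟩ := hneZ
        obtain ⟨i, hi, hxi⟩ := hcov x hx
        exact ⟨i, hi, Nat.zero_le _, x, hx, hxi⟩
      | succ k ih =>
        obtain ⟨i, hi, hki, x, ⟨p, hp, rfl⟩, hxi⟩ := ih
        obtain ⟨i', j', hi', hj', hij', h3, h4⟩ := hAe p (hor hp)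
        have := hd i i' _ hxi h3
        refine ⟨j', hj', by omega, p.2, ?_, h4⟩
        rw [he]; exact mem_image_of_mem _ hp
    obtain ⟨i, hi, hki, _⟩ := key (n + 1)
    omega
  · have key : ∀ k, ∃ i ≤ n, k ≤ i ∧ ∃ x ∈ Prod.snd '' Z, x ∈ Y i := by
      intro k
      induction k with
      | zero =>
        obtain ⟨x, hx⟩ := hneZ
        obtain ⟨i, hi, hxi⟩ := hcov x hx
        exact ⟨i, hi, Nat.zero_le _, x, he ▸ hx, hxi⟩
      | succ k ih =>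
        obtain ⟨i, hi, hki, x, ⟨p, hp, rfl⟩, hxi⟩ := ih
        obtain ⟨i', j', hi', hj', hij', h3, h4⟩ := hBe p (hor hp)
        have := hd i j' _ hxi h4
        refine ⟨i', hi', by omega, p.1, ?_, h3⟩
        rw [← he]; exact mem_image_of_mem _ hp
    obtain ⟨i, hi, hki, _⟩ := key (n + 1)
    omega

variable {X : Type*} [MetricSpace X] [CompactSpace X]

theorem side {V : Type*} [Finite V] {G : SimpleGraph V}
    {M : Set X} (hM : Cont M) {K : V → Set X} (hK : ∀ v, IsClosed (K v))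
    (hKM : ⋃ v, K v = M) (hadj : ∀ u v, G.Adj u v ↔ u ≠ v ∧ (K u ∩ K v).Nonempty)
    {ε ρ : ℝ} (hdense : DenseIn M univ ε)
    (hρ : ∀ x : X, ∃ z, ρ ≤ dist z x) (hερ : ε ≤ ρ / 2) (hρ0 : 0 < ρ)
    {n : ℕ} {p : ℕ → V} (hspL : ∀ i ≤ n, ∀ w, LargeEdge G K ρ (p i) w → ∃ k ≤ n, w = p k)
    {i : ℕ} {u : V} (hu : Hang G n p i u) {x : X} (hx : x ∈ K u) :
    ∃ D : Set X, Cont D ∧ x ∈ D ∧ (∃ a ∈ D, a ∈ K (p i)) ∧ ∃ z ∈ M, ∀ d ∈ D, ρ / 2 ≤ dist z d := by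
  have hi : i ≤ n := hu.1
  have hKsub : ∀ v, K v ⊆ M := fun v => by rw [← hKM]; exact subset_iUnion K v
  by_cases hup : u = p i
  · refine ⟨{x}, ⟨isClosed_singleton, isConnected_singleton⟩, rfl, ⟨x, rfl, hup ▸ hx⟩, ?_⟩
    obtain ⟨z', hz'⟩ := hρ x
    obtain ⟨z, hz, hzz⟩ := hdense z' (mem_univ _)
    refine ⟨z, hz, ?_⟩
    rintro d rfl
    have := dist_triangle z' z d
    linarith
  · obtain ⟨w, haw, hw, huw⟩ := hang_branch hu hup
    have hnL : ¬ LargeEdge G K ρ (p i) w := by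
      intro h
      obtain ⟨k, hk, hwk⟩ := hspL i hi w h
      exact hw k hk hwk
    set F : Set X := ⋃ v ∈ branch G (p i) w, K v with hF
    have hFc : IsClosed F := (Set.toFinite _).isClosed_biUnion (fun v _ => hK v)
    have hxF : x ∈ F := mem_biUnion huw hx
    have hxM : x ∈ M := hKsub u hx
    have hMF : ¬ M ⊆ F := by
      intro h
      exact hnL ⟨haw, M, hM, h, hdense.mono (by linarith)⟩
    set F' : Set X := ⋃ v ∈ (branch G (p i) w)ᶜ, K v with hF'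
    have hFc' : IsClosed F' := (Set.toFinite _).isClosed_biUnion (fun v _ => hK v)
    have hcl : closure (M \ F) ⊆ F' := by
      apply closure_minimal _ hFc'
      rintro y ⟨hyM, hyF⟩
      rw [← hKM, mem_iUnion] at hyM
      obtain ⟨v, hv⟩ := hyM
      refine mem_biUnion (show v ∈ (branch G (p i) w)ᶜ from ?_) hv
      intro hvb
      exact hyF (mem_biUnion hvb hv)
    obtain ⟨y, hyC, hycl⟩ := bump hM hFc hxM hxF hMF
    have hC : Cont (connectedComponentIn (M ∩ F) x) := cont_comp (hM.1.inter hFc) ⟨hxM, hxF⟩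
    have hCF : connectedComponentIn (M ∩ F) x ⊆ F :=
      (connectedComponentIn_subset _ _).trans inter_subset_right
    refine ⟨_, hC, mem_connectedComponentIn ⟨hxM, hxF⟩, ⟨y, hyC, ?_⟩, ?_⟩
    · have h1 := hcl hycl
      have h2 := hCF hyC
      simp only [hF, hF', mem_iUnion] at h1 h2
      obtain ⟨v', hv', hyv'⟩ := h1
      obtain ⟨v, hv, hyv⟩ := h2
      have hvv : v ≠ v' := by
        rintro rfl
        exact hv' hv
      have ha : G.Adj v v' := (hadj _ _).2 ⟨hvv, y, hyv, hyv'⟩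
      have : v' = p i := by
        by_contra hne
        exact hv' (branch_adj hv ha hne)
      rw [← this]; exact hyv'
    · have hnd : ¬ DenseIn (connectedComponentIn (M ∩ F) x) univ ρ := by
        intro h
        exact hnL ⟨haw, _, hC, hCF, h⟩
      unfold DenseIn at hnd
      push Not at hnd
      obtain ⟨z', -, hz'⟩ := hnd
      obtain ⟨z, hz, hzz⟩ := hdense z' (mem_univ _)
      refine ⟨z, hz, fun d hd => ?_⟩
      have h1 := hz' d hd
      have := dist_triangle z' z d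
      linarith

theorem thin_of_tree {V : Type*} [Finite V] [Nonempty V] {G : SimpleGraph V}
    (hG : G.IsAcyclic) (hGc : G.Connected) {M : Set X} (hM : Cont M) {K : V → Set X}
    (hK : ∀ v, IsClosed (K v)) (hKM : ⋃ v, K v = M)
    (hadj : ∀ u v, G.Adj u v ↔ u ≠ v ∧ (K u ∩ K v).Nonempty)
    {ε ρ : ℝ} (hε : 0 < ε) (hmesh : ∀ v, ∀ x ∈ K v, ∀ y ∈ K v, dist x y < ε)
    (hdense : DenseIn M univ ε) (hρ : ∀ x : X, ∃ z, ρ ≤ dist z x) (hερ : ε ≤ ρ / 2) (hρ0 : 0 < ρ)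
    (hJ : ∀ v a b c, LargeEdge G K ρ v a → LargeEdge G K ρ v b → LargeEdge G K ρ v c →
      a = b ∨ b = c ∨ a = c) :
    Thin M (2 * ε) (ρ / 2) := by
  have hKsub : ∀ v, K v ⊆ M := fun v => by rw [← hKM]; exact subset_iUnion K v
  obtain ⟨n, p, hsp, hspL⟩ := exists_spine hG (LargeEdge G K ρ) (fun v w h => h.1) (by
    rintro v w v' ⟨hvw, C, hC, hCs, hCd⟩ hvv' hne
    refine ⟨hvv'.symm, C, hC, hCs.trans ?_, hCd⟩
    exact biUnion_subset_biUnion_left (branch_mono hG hvw hvv' hne)) hJ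
  intro Z hZ hZM hZe
  let Y : ℕ → Set X := fun i => ⋃ u ∈ {u | Hang G n p i u}, K u
  have hYm : ∀ i x, x ∈ Y i → ∃ u, Hang G n p i u ∧ x ∈ K u := by
    intro i x hx
    simp only [Y, mem_iUnion] at hx
    obtain ⟨u, hu, hxu⟩ := hx
    exact ⟨u, hu, hxu⟩
  obtain ⟨q, hq, i, hi, j, hj, hqi, hqj, hij, hji⟩ := chain_pair (n := n) (Y := Y)
    (fun i => (Set.toFinite _).isClosed_biUnion (fun v _ => hK v)) hZ.2 hZe
    (by
      rintro _ ⟨q, hq, rfl⟩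
      have h1 : q.1 ∈ ⋃ v, K v := by rw [hKM]; exact (hZM hq).1
      obtain ⟨v, hv⟩ := mem_iUnion.1 h1
      obtain ⟨i, hi⟩ := exists_hang hGc hsp v
      exact ⟨i, hi.1, mem_biUnion (show v ∈ {u | Hang G n p i u} from hi) hv⟩)
    (by
      intro i j x hxi hxj
      obtain ⟨u, hu, hxu⟩ := hYm i x hxi
      obtain ⟨v, hv, hxv⟩ := hYm j x hxj
      refine hang_adj hG hsp hu hv ?_
      by_cases huv : u = v
      · exact Or.inl huv
      · exact Or.inr ((hadj _ _).2 ⟨huv, x, hxu, hxv⟩))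
  obtain ⟨u, hu, hqu⟩ := hYm i _ hqi
  obtain ⟨v, hv, hqv⟩ := hYm j _ hqj
  obtain ⟨D, hD, hxD, ⟨a, haD, haK⟩, hDfar⟩ :=
    side hM hK hKM hadj hdense hρ hερ hρ0 hspL hu hqu
  obtain ⟨E, hE, hyE, ⟨b, hbE, hbK⟩, hEfar⟩ :=
    side hM hK hKM hadj hdense hρ hερ hρ0 hspL hv hqv
  refine ⟨q, hq, D, E, hD, hE, ⟨q.1, hxD, by rw [dist_self]; linarith⟩,
    ⟨q.2, hyE, by rw [dist_self]; linarith⟩, ⟨a, haD, b, hbE, ?_⟩, hDfar, hEfar⟩
  have hcommon : ∀ k, k < n → ∃ c, c ∈ K (p k) ∧ c ∈ K (p (k + 1)) := by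
    intro k hk
    obtain ⟨-, c, hc⟩ := (hadj _ _).1 (hsp.1 k hk)
    exact ⟨c, hc.1, hc.2⟩
  rcases Nat.lt_trichotomy i j with h | h | h
  · have : j = i + 1 := by omega
    subst this
    obtain ⟨c, hc1, hc2⟩ := hcommon i (by omega)
    have h1 := hmesh _ a haK c hc1
    have h2 := hmesh _ c hc2 b hbK
    linarith [dist_triangle a c b]
  · subst h
    have := hmesh _ a haK b hbK
    linarith
  · have : i = j + 1 := by omega
    subst this
    obtain ⟨c, hc1, hc2⟩ := hcommon j (by omega)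
    have h1 := hmesh _ a haK c hc2
    have h2 := hmesh _ c hc1 b hbK
    linarith [dist_triangle a c b]

end Pool.Agent.HEC
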