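import Mathlib
import Pool.Agent.HEC.Near
import Pool.Agent.HEC.TreeThin

set_option autoImplicit false

open Set Filter Topology TopologicalSpace

namespace Pool.Agent.HEC

theorem nerve_connected {X V : Type*} [TopologicalSpace X] [Finite V] {K : V → Set X}
    (hK : ∀ v, IsClosed (K v)) (hne : ∀ v, (K v).Nonempty) (hM : IsConnected (⋃ v, K v)) :
    (nerve K).Connected := by
  have hV : Nonempty V := by
    obtain ⟨x, hx⟩ := hM.nonempty
    obtain ⟨v, -⟩ := mem_iUnion.1 hx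
    exact ⟨v⟩
  refine ⟨fun v w => ?_⟩
  by_contra hvw
  let S : Set V := {u | (nerve K).Reachable v u}
  have hA : IsClosed (⋃ u ∈ S, K u) := (Set.toFinite _).isClosed_biUnion (fun u _ => hK u)
  have hB : IsClosed (⋃ u ∈ Sᶜ, K u) := (Set.toFinite _).isClosed_biUnion (fun u _ => hK u)
  have hcov : (⋃ v, K v) ⊆ (⋃ u ∈ S, K u) ∪ ⋃ u ∈ Sᶜ, K u := by
    intro x hx
    obtain ⟨u, hu⟩ := mem_iUnion.1 hx
    by_cases huS : u ∈ S
    · exact Or.inl (mem_biUnion huS hu)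
    · exact Or.inr (mem_biUnion (show u ∈ Sᶜ from huS) hu)
  obtain ⟨x, hx⟩ := hne v
  obtain ⟨y, hy⟩ := hne w
  obtain ⟨z, -, hzA, hzB⟩ := isPreconnected_closed_iff.1 hM.isPreconnected _ _ hA hB hcov
    ⟨x, mem_iUnion_of_mem v hx, mem_biUnion (show v ∈ S from SimpleGraph.Reachable.refl v) hx⟩
    ⟨y, mem_iUnion_of_mem w hy, mem_biUnion (show w ∈ Sᶜ from hvw) hy⟩
  simp only [mem_iUnion] at hzA hzB
  obtain ⟨u, hu, hzu⟩ := hzA
  obtain ⟨u', hu', hzu'⟩ := hzB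
  apply hu'
  have hadj : (nerve K).Adj u u' := by
    refine ⟨?_, z, hzu, hzu'⟩
    rintro rfl
    exact hu' hu
  exact (show (nerve K).Reachable v u from hu).trans hadj.reachable

variable {X : Type*} [MetricSpace X] [CompactSpace X]

/-- Restricting a forest cover without large junctions to a subcontinuum. -/
theorem thin_of_cover {V : Type*} [Finite V] {M' : Set X} (hM' : Cont M')
    {K : V → Set X} {ε ρ : ℝ} (hK : ∀ v, IsClosed (K v)) (hsub : M' ⊆ ⋃ v, K v)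
    (hmesh : ∀ v, ∀ x ∈ K v, ∀ y ∈ K v, dist x y < ε) (hacyc₀ : (nerve K).IsAcyclic) (hε : 0 < ε)
    (hdense : DenseIn M' univ ε) (hρ : ∀ x : X, ∃ z, ρ ≤ dist z x) (hερ : ε ≤ ρ / 2) (hρ0 : 0 < ρ)
    (hJ : ∀ v, (K v ∩ M').Nonempty → ¬ LargeJunction K ρ v) :
    Thin M' (2 * ε) (ρ / 2) := by
  let V' := {v : V // (K v ∩ M').Nonempty}
  let K' : V' → Set X := fun v => K v.1 ∩ M'
  have hK' : ∀ v, IsClosed (K' v) := fun v => (hK v.1).inter hM'.1
  have hne : ∀ v, (K' v).Nonempty := fun v => v.2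
  have hKM' : ⋃ v, K' v = M' := by
    apply Subset.antisymm
    · exact iUnion_subset (fun v => inter_subset_right)
    · intro x hx
      obtain ⟨v, hv⟩ := mem_iUnion.1 (hsub hx)
      exact mem_iUnion.2 ⟨⟨v, x, hv, hx⟩, hv, hx⟩
  have hconn : (nerve K').Connected :=
    nerve_connected hK' hne (by rw [hKM']; exact hM'.2)
  let φ : nerve K' →g nerve K :=
    { toFun := Subtype.val
      map_rel' := by
        rintro u v ⟨h1, x, hx1, hx2⟩
        exact ⟨fun h => h1 (Subtype.ext h), x, hx1.1, hx2.1⟩ }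
  have hacyc : (nerve K').IsAcyclic := hacyc₀.comap φ Subtype.val_injective
  have hbr : ∀ v w u, u ∈ branch (nerve K') v w → u.1 ∈ branch (nerve K) v.1 w.1 := by
    rintro v w u ⟨q, hq⟩
    refine ⟨q.map φ, ?_⟩
    rw [SimpleGraph.Walk.support_map, List.mem_map]
    rintro ⟨x, hx, hxv⟩
    exact hq (by rwa [Subtype.ext hxv] at hx)
  have hLg : ∀ v w, LargeEdge (nerve K') K' ρ v w → LargeEdge (nerve K) K ρ v.1 w.1 := by
    rintro v w ⟨h1, C, hC, hCs, hCd⟩
    refine ⟨φ.map_rel' h1, C, hC, ?_, hCd⟩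
    intro x hx
    have h2 := hCs hx
    simp only [mem_iUnion] at h2
    obtain ⟨u, hu, hxu⟩ := h2
    exact mem_biUnion (hbr v w u hu) hxu.1
  have : Nonempty V' := hconn.nonempty
  refine thin_of_tree (G := nerve K') hacyc hconn hM' hK' hKM' (fun u v => Iff.rfl) hε
    (fun v x hx y hy => hmesh v.1 x hx.1 y hy.1) hdense hρ hερ hρ0 ?_
  intro v a b c ha hb hc
  by_contra hcon
  push Not at hcon
  obtain ⟨h1, h2, h3⟩ := hcon
  exact hJ v.1 v.2 ⟨a.1, b.1, c.1, fun h => h1 (Subtype.ext h), fun h => h2 (Subtype.ext h),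
    fun h => h3 (Subtype.ext h), hLg v a ha, hLg v b hb, hLg v c hc⟩

omit [CompactSpace X] in
theorem LargeJunction.mono {V : Type*} {K : V → Set X} {ρ ρ' : ℝ} {v : V}
    (h : LargeJunction K ρ v) (hρ : ρ ≤ ρ') : LargeJunction K ρ' v := by
  obtain ⟨a, b, c, h1, h2, h3, ⟨ha, C1, hC1, hs1, hd1⟩, ⟨hb, C2, hC2, hs2, hd2⟩,
    ⟨hc, C3, hC3, hs3, hd3⟩⟩ := h
  exact ⟨a, b, c, h1, h2, h3, ⟨ha, C1, hC1, hs1, hd1.mono hρ⟩, ⟨hb, C2, hC2, hs2, hd2.mono hρ⟩,
    ⟨hc, C3, hC3, hs3, hd3.mono hρ⟩⟩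

/-- **Large junction theorem.** -/
theorem large_junctions [ConnectedSpace X] [Nontrivial X] (hX : HE X) (hHI : HI X) {ρ : ℝ}
    (hρ : 0 < ρ) (N : ℕ)
    (h : ∀ ε > 0, ∃ M : Set X, Cont M ∧ DenseIn M univ ε ∧
      ∃ (n : ℕ) (K : Fin n → Set X) (B : Set (Fin n)),
        (∀ v, IsClosed (K v)) ∧ ⋃ v, K v = M ∧ (∀ v, ∀ x ∈ K v, ∀ y ∈ K v, dist x y < ε) ∧
        B.ncard ≤ N ∧ (nerve fun v : ↥(Bᶜ) => K v).IsAcyclic ∧
        ∀ v, ¬ LargeJunction (fun v : ↥(Bᶜ) => K v) ρ v) : SpanZero X := by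
  by_contra hns
  obtain ⟨a, b, hab⟩ := exists_pair_ne X
  have hab0 : 0 < dist a b := dist_pos.2 hab
  set ρ' := min ρ (dist a b / 2) with hρ'
  have hρ'0 : 0 < ρ' := lt_min hρ (by positivity)
  have hfar : ∀ x : X, ∃ z, ρ' ≤ dist z x := by
    intro x
    by_contra hcon
    push Not at hcon
    have h1 := (hcon a).trans_le (min_le_right _ _)
    have h2 := (hcon b).trans_le (min_le_right _ _)
    linarith [dist_triangle_right a b x]
  refine hns (engine hX hHI ⟨ρ' / 2, by positivity, fun ε hε => ?_⟩)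
  set η := min (ε / 2) (ρ' / 2) with hη
  have hη0 : 0 < η := lt_min (by positivity) (by positivity)
  obtain ⟨M, hM, hMd⟩ := disjoint_near hX hHI hns N univ ⟨isClosed_univ, isConnected_univ⟩
    ⟨a, mem_univ _, b, mem_univ _, hab⟩ (η / 2) (by positivity)
  -- a positive lower bound for the distances
  have hpair : ∀ i j : ℕ, ∃ d > 0, i ≤ N → j ≤ N → i ≠ j → ∀ x ∈ M i, ∀ y ∈ M j, d ≤ dist x y := by
    intro i j
    by_cases hij : i ≤ N ∧ j ≤ N ∧ i ≠ j
    · obtain ⟨hi, hj, hne⟩ := hij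
      obtain ⟨r, hr, hrd⟩ := Metric.exists_pos_forall_lt_edist (hM i hi).1.1.isCompact
        (hM j hj).1.1 (hMd i hi j hj hne)
      refine ⟨r, by exact_mod_cast hr, fun _ _ _ x hx y hy => ?_⟩
      have := (hrd x hx y hy).le
      rw [edist_nndist] at this
      have h2 : r ≤ nndist x y := by exact_mod_cast this
      exact_mod_cast h2
    · exact ⟨1, one_pos, fun h1 h2 h3 => absurd ⟨h1, h2, h3⟩ hij⟩
  choose d hd0 hd using hpair
  obtain ⟨q₀, hq₀⟩ := Finite.exists_min (fun q : Fin (N + 1) × Fin (N + 1) => d q.1 q.2)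
  set d₀ := d q₀.1 q₀.2 with hd₀
  have hd₀0 : 0 < d₀ := hd0 _ _
  have hdd : ∀ i ≤ N, ∀ j ≤ N, i ≠ j → ∀ x ∈ M i, ∀ y ∈ M j, d₀ ≤ dist x y := by
    intro i hi j hj hne x hx y hy
    have h1 := hq₀ (⟨i, by omega⟩, ⟨j, by omega⟩)
    exact h1.trans (hd i j hi hj hne x hx y hy)
  have hns' : ∀ i : ℕ, ∃ e > 0, i ≤ N → ∀ L : Set X, Cont L → DenseIn L univ e →
      ∃ L' ⊆ L, Cont L' ∧ (∀ x ∈ L', ∃ a ∈ M i, dist x a ≤ d₀ / 4) ∧ DenseIn L' (M i) (η / 2) := by
    intro i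
    by_cases hi : i ≤ N
    · obtain ⟨e, he, hee⟩ := near_sub hHI (hM i hi).1 (δ := η / 2) (r := d₀ / 4) (by positivity)
        (by positivity)
      exact ⟨e, he, fun _ => hee⟩
    · exact ⟨1, one_pos, fun h => absurd h hi⟩
  choose e he0 he using hns'
  obtain ⟨i₀, hi₀⟩ := Finite.exists_min (fun i : Fin (N + 1) => e i)
  set ε₀ := min (min (e i₀) η) (d₀ / 4) with hε₀
  have hε₀0 : 0 < ε₀ := lt_min (lt_min (he0 _) hη0) (by positivity)
  obtain ⟨L, hL, hLd, n, K, B, hK, hKL, hmesh, hcard, hacyc, hJ⟩ := h ε₀ hε₀0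
  have hL' : ∀ i : Fin (N + 1), ∃ L' ⊆ L, Cont L' ∧ (∀ x ∈ L', ∃ a ∈ M i, dist x a ≤ d₀ / 4) ∧
      DenseIn L' (M i) (η / 2) := by
    intro i
    refine he i (by omega) L hL (hLd.mono ?_)
    exact ((min_le_left _ _).trans (min_le_left _ _)).trans (hi₀ i)
  choose L' hL'L hL'c hL'n hL'd using hL'
  -- one of the continua avoids all the removed links
  have hex : ∃ i : Fin (N + 1), ∀ v ∈ B, ¬ (K v ∩ L' i).Nonempty := by
    by_contra hcon
    push Not at hcon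
    choose f hf1 hf2 using hcon
    have hinj : Function.Injective (fun i => (⟨f i, hf1 i⟩ : B)) := by
      intro i j hij
      by_contra hne
      have hfij : f i = f j := congrArg Subtype.val hij
      obtain ⟨x, hxK, hxL⟩ := hf2 i
      obtain ⟨y, hyK, hyL⟩ := hf2 j
      rw [← hfij] at hyK
      have h1 := hmesh _ x hxK y hyK
      obtain ⟨x', hx', hxx⟩ := hL'n i x hxL
      obtain ⟨y', hy', hyy⟩ := hL'n j y hyL
      have h2 := hdd i (by omega) j (by omega) (fun h => hne (Fin.ext h)) x' hx' y' hy'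
      have h3 : ε₀ ≤ d₀ / 4 := min_le_right _ _
      have h4 := dist_triangle x' x y'
      have h5 := dist_triangle x y y'
      rw [dist_comm x' x] at h4
      linarith
    have h1 := Nat.card_le_card_of_injective _ hinj
    rw [Nat.card_eq_fintype_card, Fintype.card_fin, Nat.card_coe_set_eq] at h1
    omega
  obtain ⟨i, hi⟩ := hex
  have hdense : DenseIn (L' i) univ η :=
    ((hL'd i).trans (hM i (by omega)).2.2).mono (by linarith)
  have hthin := thin_of_cover (hL'c i) (K := fun v : ↥(Bᶜ) => K v) (fun v => hK v)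
    (by
      intro x hx
      have h1 : x ∈ ⋃ v, K v := by rw [hKL]; exact hL'L i hx
      obtain ⟨v, hv⟩ := mem_iUnion.1 h1
      exact mem_iUnion.2 ⟨⟨v, fun hvB => hi v hvB ⟨x, hv, hx⟩⟩, hv⟩)
    (fun v x hx y hy => (hmesh v x hx y hy).trans_le ((min_le_left _ _).trans (min_le_right _ _)))
    hacyc hη0 hdense hfar (min_le_right _ _) hρ'0
    (fun v _ hJ' => hJ v (hJ'.mono (min_le_left _ _)))
  exact ⟨L' i, hL'c i, hdense.mono (by have := min_le_left (ε / 2) (ρ' / 2); linarith),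
    hthin.mono (by have := min_le_left (ε / 2) (ρ' / 2); linarith) le_rfl⟩

end Pool.Agent.HEC
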