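import Mathlib
import Pool.Agent.HEC.Near

set_option autoImplicit false

open Set Filter Topology TopologicalSpace

namespace Pool.Agent.HEC

variable {X : Type*} [MetricSpace X] [CompactSpace X]

/-- Subcontinua which come close to both points of an irreducible pair are almost dense. -/
theorem near_of_irr {x y : X} (hirr : ∀ D : Set X, Cont D → x ∈ D → y ∈ D → D = univ)
    {δ : ℝ} (hδ : 0 < δ) :
    ∃ r > 0, ∀ M : Set X, Cont M → (∃ a ∈ M, dist a x < r) → (∃ b ∈ M, dist b y < r) →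
      DenseIn M univ δ := by
  by_contra hcon
  push Not at hcon
  have hex : ∀ n : ℕ, ∃ M : Set X, ∃ a b z : X, Cont M ∧ a ∈ M ∧ b ∈ M ∧
      dist a x < 1 / ((n : ℝ) + 1) ∧ dist b y < 1 / ((n : ℝ) + 1) ∧ ∀ d ∈ M, δ ≤ dist z d := by
    intro n
    obtain ⟨M, hM, ⟨a, ha, hax⟩, ⟨b, hb, hby⟩, hnd⟩ := hcon (1 / ((n : ℝ) + 1)) (by positivity)
    unfold DenseIn at hnd
    push Not at hnd
    obtain ⟨z, -, hz⟩ := hnd
    exact ⟨M, a, b, z, hM, ha, hb, hax, hby, hz⟩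
  choose M a b z hM ha hb hax hby hz using hex
  let D : ℕ → NonemptyCompacts X := fun n => ⟨⟨M n, (hM n).1.isCompact⟩, (hM n).2.nonempty⟩
  let s : ℕ → NonemptyCompacts X × X := fun n => (D n, z n)
  obtain ⟨q, φ, hφ, hq⟩ := CompactSpace.tendsto_subseq s
  obtain ⟨D₀, z₀⟩ := q
  have hqD : Tendsto (fun n => D (φ n)) atTop (𝓝 D₀) := (continuous_fst.tendsto _).comp hq
  have hqz : Tendsto (fun n => z (φ n)) atTop (𝓝 z₀) := (continuous_snd.tendsto _).comp hq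
  have h0 : Tendsto (fun n : ℕ => 1 / (((φ n : ℕ) : ℝ) + 1)) atTop (𝓝 0) :=
    tendsto_one_div_add_atTop_nhds_zero_nat.comp hφ.tendsto_atTop
  have hqa : Tendsto (fun n => a (φ n)) atTop (𝓝 x) := by
    rw [tendsto_iff_dist_tendsto_zero]
    exact squeeze_zero (fun n => dist_nonneg) (fun n => (hax (φ n)).le) h0
  have hqb : Tendsto (fun n => b (φ n)) atTop (𝓝 y) := by
    rw [tendsto_iff_dist_tendsto_zero]
    exact squeeze_zero (fun n => dist_nonneg) (fun n => (hby (φ n)).le) h0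
  have hxD : x ∈ (D₀ : Set X) := nc_mem_limit hqD hqa (fun n => ha (φ n))
  have hyD : y ∈ (D₀ : Set X) := nc_mem_limit hqD hqb (fun n => hb (φ n))
  have hDc : Cont (D₀ : Set X) :=
    ⟨D₀.isCompact.isClosed, nc_connected_limit hqD (fun n => (hM (φ n)).2)⟩
  have hfar := nc_far_limit hqD hqz (fun n => hz (φ n))
  have hu := hirr _ hDc hxD hyD
  have := hfar z₀ (by rw [hu]; exact mem_univ _)
  rw [dist_self] at this
  linarith

omit [CompactSpace X] in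
/-- Points with nearby images are close to a common continuum, if the fibres of the map lie in
continua which are not `ρ`-dense. -/
theorem near_fibre [CompactSpace X] {Y : Type*} [MetricSpace Y] {g : X → Y} (hg : Continuous g)
    {ρ : ℝ}
    (hfib : ∀ x y, g x = g y → ∃ D : Set X, Cont D ∧ x ∈ D ∧ y ∈ D ∧ ∃ z, ∀ d ∈ D, ρ ≤ dist z d)
    {ε : ℝ} (hε : 0 < ε) :
    ∃ δ > 0, ∀ x y, dist (g x) (g y) < δ → ∃ D : Set X, Cont D ∧ (∃ a ∈ D, dist x a < ε) ∧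
      (∃ b ∈ D, dist y b < ε) ∧ ∃ z, ∀ d ∈ D, ρ ≤ dist z d := by
  by_contra hcon
  push Not at hcon
  have hex : ∀ n : ℕ, ∃ q : X × X, dist (g q.1) (g q.2) < 1 / ((n : ℝ) + 1) ∧
      ∀ D : Set X, Cont D → (∃ a ∈ D, dist q.1 a < ε) → (∃ b ∈ D, dist q.2 b < ε) →
        ∀ z, ∃ d ∈ D, dist z d < ρ := by
    intro n
    obtain ⟨x, y, hxy, h⟩ := hcon (1 / ((n : ℝ) + 1)) (by positivity)
    exact ⟨(x, y), hxy, h⟩
  choose q hq hqD using hex
  obtain ⟨⟨x₀, y₀⟩, φ, hφ, hlim⟩ := CompactSpace.tendsto_subseq q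
  have hx : Tendsto (fun n => (q (φ n)).1) atTop (𝓝 x₀) := (continuous_fst.tendsto _).comp hlim
  have hy : Tendsto (fun n => (q (φ n)).2) atTop (𝓝 y₀) := (continuous_snd.tendsto _).comp hlim
  have h0 : Tendsto (fun n : ℕ => 1 / (((φ n : ℕ) : ℝ) + 1)) atTop (𝓝 0) :=
    tendsto_one_div_add_atTop_nhds_zero_nat.comp hφ.tendsto_atTop
  have heq : g x₀ = g y₀ := by
    have h1 : Tendsto (fun n => dist (g (q (φ n)).1) (g (q (φ n)).2)) atTop
        (𝓝 (dist (g x₀) (g y₀))) :=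
      ((hg.tendsto x₀).comp hx).dist ((hg.tendsto y₀).comp hy)
    have h2 : dist (g x₀) (g y₀) ≤ 0 := le_of_tendsto_of_tendsto' h1 h0 (fun n => (hq _).le)
    exact dist_le_zero.1 h2
  obtain ⟨D, hD, hxD, hyD, z, hz⟩ := hfib x₀ y₀ heq
  have h1 : ∀ᶠ n in atTop, dist (q (φ n)).1 x₀ < ε := by
    rw [Metric.tendsto_nhds] at hx
    exact hx ε hε
  have h2 : ∀ᶠ n in atTop, dist (q (φ n)).2 y₀ < ε := by
    rw [Metric.tendsto_nhds] at hy
    exact hy ε hε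
  obtain ⟨n, hn1, hn2⟩ := (h1.and h2).exists
  obtain ⟨d, hd, hdz⟩ := hqD (φ n) D hD ⟨x₀, hxD, hn1⟩ ⟨y₀, hyD, hn2⟩ z
  exact absurd (hz d hd) (not_le.2 hdz)

/-- **Small span images**, general form. -/
theorem small_span_images [ConnectedSpace X] [Nontrivial X] (hX : HE X) (hHI : HI X)
    {Y : Type*} [MetricSpace Y] {g : X → Y} (hg : Continuous g) {ρ : ℝ} (hρ : 0 < ρ)
    (hfib : ∀ x y, g x = g y → ∃ D : Set X, Cont D ∧ x ∈ D ∧ y ∈ D ∧ ∃ z, ∀ d ∈ D, ρ ≤ dist z d)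
    (h : ∀ ε > 0, ∀ U V : Set X, IsOpen U → IsOpen V → U.Nonempty → V.Nonempty →
      ∃ M : Set X, Cont M ∧ (M ∩ U).Nonempty ∧ (M ∩ V).Nonempty ∧
        ∀ W : Set (Y × Y), Cont W → W ⊆ (g '' M) ×ˢ (g '' M) → Prod.fst '' W = Prod.snd '' W →
          ∃ p ∈ W, dist p.1 p.2 < ε) : SpanZero X := by
  by_contra hns
  obtain ⟨a, b, hab⟩ := exists_pair_ne X
  obtain ⟨Z₁, hZ₁, hZ₁1, hZ₁2, hirr₁⟩ := exists_irr hX hHI hns
    ⟨isClosed_univ, isConnected_univ⟩ (K := (univ : Set X)) ⟨a, mem_univ _, b, mem_univ _, hab⟩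
  obtain ⟨⟨x, y⟩, hxy⟩ := hZ₁.2.nonempty
  have hirr : ∀ D : Set X, Cont D → x ∈ D → y ∈ D → D = univ := fun D hD h1 h2 =>
    univ_subset_iff.1 (hirr₁ _ hxy D hD h1 h2)
  refine hns (engine hX hHI ⟨ρ / 2, by positivity, fun ε hε => ?_⟩)
  have hη0 : 0 < min ε (ρ / 2) := lt_min hε (by positivity)
  obtain ⟨δ, hδ, hnf⟩ := near_fibre hg hfib hη0
  obtain ⟨r, hr, hnr⟩ := near_of_irr hirr hη0
  obtain ⟨M, hM, ⟨a', ha', hax⟩, ⟨b', hb', hby⟩, hspan⟩ := h δ hδ (Metric.ball x r)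
    (Metric.ball y r) Metric.isOpen_ball Metric.isOpen_ball ⟨x, Metric.mem_ball_self hr⟩
    ⟨y, Metric.mem_ball_self hr⟩
  have hMd : DenseIn M univ (min ε (ρ / 2)) := hnr M hM ⟨a', ha', hax⟩ ⟨b', hb', hby⟩
  refine ⟨M, hM, hMd.mono (min_le_left _ _), ?_⟩
  intro Z hZ hZM hZe
  have hgg : Continuous (fun p : X × X => (g p.1, g p.2)) := by fun_prop
  have hW := hZ.image (f := fun p : X × X => (g p.1, g p.2)) hgg.continuousOn
  obtain ⟨_, ⟨p, hp, rfl⟩, hpd⟩ := hspan _ hW (by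
    rintro _ ⟨p, hp, rfl⟩
    exact ⟨mem_image_of_mem _ (hZM hp).1, mem_image_of_mem _ (hZM hp).2⟩) (by
    ext t
    constructor
    · rintro ⟨_, ⟨p, hp, rfl⟩, rfl⟩
      have h1 : p.1 ∈ Prod.snd '' Z := by rw [← hZe]; exact mem_image_of_mem _ hp
      obtain ⟨q, hq, hqp⟩ := h1
      exact ⟨_, mem_image_of_mem _ hq, by simp only [hqp]⟩
    · rintro ⟨_, ⟨p, hp, rfl⟩, rfl⟩
      have h1 : p.2 ∈ Prod.fst '' Z := by rw [hZe]; exact mem_image_of_mem _ hp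
      obtain ⟨q, hq, hqp⟩ := h1
      exact ⟨_, mem_image_of_mem _ hq, by simp only [hqp]⟩)
  obtain ⟨D, hD, ⟨a₁, ha₁, ha₁'⟩, ⟨b₁, hb₁, hb₁'⟩, z, hz⟩ := hnf p.1 p.2 hpd
  obtain ⟨z', hz', hzz'⟩ := hMd z (mem_univ _)
  have hfar : ∀ d ∈ D, ρ / 2 ≤ dist z' d := by
    intro d hd
    have h1 := hz d hd
    have h2 := hzz'.trans_le (min_le_right _ _)
    linarith [dist_triangle z z' d]
  exact ⟨p, hp, D, D, hD, hD, ⟨a₁, ha₁, ha₁'.trans_le (min_le_left _ _)⟩,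
    ⟨b₁, hb₁, hb₁'.trans_le (min_le_left _ _)⟩, ⟨a₁, ha₁, a₁, ha₁, by rw [dist_self]; exact hε⟩,
    ⟨z', hz', hfar⟩, ⟨z', hz', hfar⟩⟩

/-- The fibres of a nonconstant monotone map are uniformly not dense. -/
theorem fibre_far {Y : Type*} [MetricSpace Y] {g : X → Y} (hg : Continuous g)
    (hmono : ∀ t, IsPreconnected (g ⁻¹' {t})) (hne : ∃ a b, g a ≠ g b) :
    ∃ ρ > 0, ∀ x y, g x = g y → ∃ D : Set X, Cont D ∧ x ∈ D ∧ y ∈ D ∧
      ∃ z, ∀ d ∈ D, ρ ≤ dist z d := by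
  obtain ⟨a, b, hab⟩ := hne
  have hr : 0 < dist (g a) (g b) := dist_pos.2 hab
  have hu : UniformContinuous g := CompactSpace.uniformContinuous_of_continuous hg
  rw [Metric.uniformContinuous_iff] at hu
  obtain ⟨ρ, hρ, hρu⟩ := hu (dist (g a) (g b) / 2) (by positivity)
  refine ⟨ρ, hρ, fun x y hxy => ⟨g ⁻¹' {g x}, ⟨isClosed_singleton.preimage hg, ⟨x, rfl⟩,
    hmono _⟩, rfl, hxy.symm, ?_⟩⟩
  by_contra hcon
  push Not at hcon
  obtain ⟨d, hd, hda⟩ := hcon a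
  obtain ⟨e, he, heb⟩ := hcon b
  have h1 := hρu hda
  have h2 := hρu heb
  rw [show g d = g x from hd] at h1
  rw [show g e = g x from he] at h2
  linarith [dist_triangle_right (g a) (g b) (g x)]

end Pool.Agent.HEC
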